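import Mathlib
import Pool.Agent.Lib.MP_0da313_nt.BV.Hooley

set_option autoImplicit false

/-!
Definitions for the circular arrangements with almost prime neighbouring products minus one.
-/

namespace Pool.Agent.APC

open Finset
open Pool.Agent.BVall

/-- the modulus attached to the prime `p`: a high power for small primes -/
def qq (p : ℕ) : ℕ := if p ≤ 65536 then p ^ 20 else p

/-! ### The statements of the pieces -/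

/-- counting in an interval with residue conditions at several coprime moduli -/
def S_crt : Prop := ∀ (T : Finset ℕ) (q : ℕ → ℕ) (A : ℕ → Finset ℕ) (a N : ℕ),
  (∀ p ∈ T, 0 < q p) → (∀ p ∈ T, ∀ p' ∈ T, p ≠ p' → (q p).Coprime (q p')) →
  (∀ p ∈ T, A p ⊆ range (q p)) →
  |(((Ico a (a + N)).filter (fun y => ∀ p ∈ T, y % q p ∈ A p)).card : ℝ)
    - N * ∏ p ∈ T, ((A p).card : ℝ) / (q p : ℝ)| ≤ ∏ p ∈ T, ((A p).card : ℝ)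

/-- the Brun-Hooley functions of dimension 4 with error one in a thousand -/
def S_fl : Prop := ∃ C : ℕ, ∀ n : ℕ, ∃ Fp Fm : (ℕ → ℝ) → ℝ,
  RepB (PK 4 n) (fun T => ∏ p ∈ T, p ≤ C * (2 ^ 2 ^ (4 + n)) ^ 82) Fp ∧
  RepB (PK 4 n) (fun T => ∏ p ∈ T, p ≤ C * (2 ^ 2 ^ (4 + n)) ^ 82) Fm ∧
  (∀ ρ : ℕ → ℝ, (∀ p ∈ PK 4 n, 0 ≤ ρ p ∧ ρ p ≤ 1) →
    Fm ρ ≤ ∏ p ∈ PK 4 n, (1 - ρ p) ∧ ∏ p ∈ PK 4 n, (1 - ρ p) ≤ Fp ρ) ∧
  ∀ g : ℕ → ℝ, Dens 4 g →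
    Fp g ≤ (1 + 1 / 1000) * ∏ p ∈ PK 4 n, (1 - g p) ∧
    (1 - 1 / 1000) * ∏ p ∈ PK 4 n, (1 - g p) ≤ Fm g

/-- the two-sided sieve in an interval -/
def S_siv : Prop := ∃ C : ℕ, ∀ (n N a : ℕ) (A : ℕ → Finset ℕ),
  (∀ p, p.Prime → A p ⊆ range (qq p) ∧ (A p).card ≤ 4) →
  (1 - 1 / 1000) * (N : ℝ) * ∏ p ∈ PK 4 n, (1 - ((A p).card : ℝ) / (qq p : ℝ))
      - C * ((2 : ℝ) ^ 2 ^ (4 + n)) ^ 86 ≤
    (((Ico a (a + N)).filter (fun y => ∀ p ∈ PK 4 n, y % qq p ∉ A p)).card : ℝ) ∧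
  (((Ico a (a + N)).filter (fun y => ∀ p ∈ PK 4 n, y % qq p ∉ A p)).card : ℝ) ≤
    (1 + 1 / 1000) * (N : ℝ) * ∏ p ∈ PK 4 n, (1 - ((A p).card : ℝ) / (qq p : ℝ))
      + C * ((2 : ℝ) ^ 2 ^ (4 + n)) ^ 86

/-- a crude lower bound for the sieve product -/
def S_low : Prop := ∃ C : ℕ, ∀ (n : ℕ) (A : ℕ → Finset ℕ),
  (∀ p, p.Prime → A p ⊆ range (qq p) ∧ (A p).card ≤ 4) →
  1 ≤ (C : ℝ) * (2 : ℝ) ^ 2 ^ (4 + n) * ∏ p ∈ PK 4 n, (1 - ((A p).card : ℝ) / (qq p : ℝ))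

/-- comparison of the product for two conditions with the product of the products -/
def S_rat : Prop := ∀ (n : ℕ) (A B : ℕ → Finset ℕ),
  (∀ p, p.Prime → A p ⊆ range (qq p) ∧ (A p).card ≤ 2) →
  (∀ p, p.Prime → B p ⊆ range (qq p) ∧ (B p).card ≤ 2) →
  ∏ p ∈ PK 4 n, (1 - ((A p ∪ B p).card : ℝ) / (qq p : ℝ)) ≤
    (∏ p ∈ PK 4 n, (1 - ((A p).card : ℝ) / (qq p : ℝ))) *
    (∏ p ∈ PK 4 n, (1 - ((B p).card : ℝ) / (qq p : ℝ))) *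
    ∏ p ∈ PK 4 n, (1 + 3 / (qq p : ℝ) * (if Disjoint (A p) (B p) then 0 else 1))

/-- the correlation factor is close to one on average -/
def S_cor : Prop := ∃ C : ℕ, ∀ (n M a : ℕ) (O : ℕ → Finset ℕ),
  (∀ p, p.Prime → O p ⊆ range (qq p) ∧ (O p).card ≤ 4) →
  ∑ t ∈ Ico a (a + M), ∏ p ∈ PK 4 n, (1 + 3 / (qq p : ℝ) * (if t % qq p ∈ O p then 1 else 0)) ≤
    (1 + 1 / 1000) * (M : ℝ) + C * ((2 : ℝ) ^ 2 ^ (4 + n)) ^ 12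

/-- expansion: abstract form for a relation `Rl p x y` which is periodic modulo `qq p` -/
def S_exp : Prop := ∃ C : ℕ, ∀ (n N M a a' : ℕ) (Rl : ℕ → ℕ → ℕ → Prop),
  C * (2 ^ 2 ^ (4 + n)) ^ 88 ≤ N → M ≤ 2 * N →
  (∀ p x y, Rl p x y ↔ Rl p (x % qq p) y) →
  (∀ p x y, Rl p x y ↔ Rl p x (y % qq p)) →
  (∀ p x, p.Prime → {y | y < qq p ∧ Rl p x y}.ncard ≤ 2) →
  (∀ p y, p.Prime → {x | x < qq p ∧ Rl p x y}.ncard ≤ 2) →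
  ∀ S : Finset ℕ, S ⊆ Ico a (a + M) →
    9 / 10 * (N : ℝ) * (S.card : ℝ) ≤ ((S.card : ℝ) + N / 100) *
      ({y | y ∈ Ico a' (a' + N) ∧ ∃ x ∈ S, ∀ p ∈ PK 4 n, ¬ Rl p x y}.ncard : ℝ)

end Pool.Agent.APC
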