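import Mathlib
import Pool.Agent.Lib.MP_e0f8f3_nt.Defs

set_option autoImplicit false

/-!
Definitions for the strong form: no small prime factors at all.

The number of index `u` is the odd number `3 + 2 * u`, the number of index `v` is the even number
`2 * v`. `P` is the product of the odd primes up to `65536`.
-/

namespace Pool.Agent.APC

open Finset
open Pool.Agent.BVall

/-- properties of the product of the small odd primes -/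
def IsP (P : ℕ) : Prop := Odd P ∧ Squarefree P ∧ 3 ≤ P ∧ (∀ p, p.Prime → p ∣ P → p ≤ 65536) ∧
  ∀ p, p.Prime → p ≤ 65536 → p ≠ 2 → p ∣ P

/-- existence of `P` -/
def T_P : Prop := ∃ P : ℕ, IsP P

/-- compatibility at the small primes of the slot class `u` and the class `v` -/
def Cm (P u v : ℕ) : Prop := ∀ p, p.Prime → p ∣ P → ((3 + 2 * u) * (2 * v)) % p ≠ 1

/-- two numbers `x, y` whose product is not `1` modulo any prime up to `2 ^ 2 ^ (4 + n)` -/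
def Fr (n x y : ℕ) : Prop := ∀ p ∈ PK 4 n, (x * y) % p ≠ 1

/-- the class bijection and the connectedness of the class graph -/
def T_cls : Prop := ∀ P : ℕ, IsP P → ∃ φ : ℕ → ℕ, (∀ i < P, φ i < P) ∧
  (∀ i < P, ∀ j < P, φ i = φ j → i = j) ∧ (∀ i < P, Cm P i (φ i)) ∧
  ∀ I : Finset ℕ, I ⊆ range P → I.Nonempty → I ≠ range P →
    ∃ i ∈ I, ∃ j ∈ range P \ I, Cm P i (φ j)

/-- for two odd numbers there is a class compatible with both -/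
def T_two : Prop := ∀ P : ℕ, IsP P → ∀ x y : ℕ, ∃ c < P, ∀ p, p.Prime → p ∣ P →
  (x * (2 * c)) % p ≠ 1 ∧ (y * (2 * c)) % p ≠ 1

/-- the relation at the prime `p > 65536` between the regular slot `(s, s + 2 P)`,
`s = 3 + 2 (i + P t)`, and the even number `2 (c + P w)` -/
def RlB (P i c p t w : ℕ) : Prop := 65536 < p ∧
  (((3 + 2 * (i + P * t)) * (2 * (c + P * w))) % p = 1 ∨
    ((3 + 2 * (i + P * t) + 2 * P) * (2 * (c + P * w))) % p = 1)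

/-- `RlB` satisfies the hypotheses of `S_exp` -/
def T_rl : Prop := ∀ P : ℕ, IsP P → ∀ i c : ℕ,
  (∀ p t w, RlB P i c p t w ↔ RlB P i c p (t % qq p) w) ∧
  (∀ p t w, RlB P i c p t w ↔ RlB P i c p t (w % qq p)) ∧
  (∀ p t, p.Prime → {w | w < qq p ∧ RlB P i c p t w}.ncard ≤ 2) ∧
  (∀ p w, p.Prime → {t | t < qq p ∧ RlB P i c p t w}.ncard ≤ 2)

/-- meaning of `RlB` for a compatible pair of classes -/
def T_good : Prop := ∀ P : ℕ, IsP P → ∀ i c n t w : ℕ, Cm P i c →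
  ((Fr n (3 + 2 * (i + P * t)) (2 * (c + P * w)) ∧
    Fr n (3 + 2 * (i + P * t) + 2 * P) (2 * (c + P * w))) ↔ ∀ p ∈ PK 4 n, ¬ RlB P i c p t w)

/-- degrees, abstract form -/
def T_dega : Prop := ∀ D : ℕ, ∃ C : ℕ, ∀ (n N a : ℕ) (Rl : ℕ → ℕ → Prop),
  C * (2 ^ 2 ^ (4 + n)) ^ 88 ≤ N →
  (∀ p y, Rl p y ↔ Rl p (y % qq p)) → (∀ p, p.Prime → {y | y < qq p ∧ Rl p y}.ncard ≤ 2) →
  D ≤ {y | y ∈ Ico a (a + N) ∧ ∀ p ∈ PK 4 n, ¬ Rl p y}.ncard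

/-- degrees: for any two numbers `x, y` and a compatible class `c` there are many `w` -/
def T_deg : Prop := ∀ P : ℕ, IsP P → ∀ D : ℕ, ∃ C : ℕ, ∀ n N a x y c : ℕ,
  C * (2 ^ 2 ^ (4 + n)) ^ 88 ≤ N →
  (∀ p, p.Prime → p ∣ P → (x * (2 * c)) % p ≠ 1 ∧ (y * (2 * c)) % p ≠ 1) →
  D ≤ {w | w ∈ Ico a (a + N) ∧ Fr n x (2 * (c + P * w)) ∧ Fr n y (2 * (c + P * w))}.ncard

/-- matching inside a class: expansion in a strong form -/
def T_in : Prop := ∀ F : ℕ, ∃ D M0 : ℕ, ∀ (G : ℕ → ℕ → Prop) (J0 B0 : Finset ℕ),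
  M0 ≤ B0.card → J0.card ≤ B0.card + 2 → B0.card ≤ J0.card + 2 →
  (∀ x ∈ J0, D ≤ {y | y ∈ B0 ∧ G x y}.ncard) → (∀ y ∈ B0, D ≤ {x | x ∈ J0 ∧ G x y}.ncard) →
  (∀ S ⊆ J0, 9 / 10 * (B0.card : ℝ) * (S.card : ℝ) ≤ ((S.card : ℝ) + B0.card / 100) *
      ({y | y ∈ B0 ∧ ∃ x ∈ S, G x y}.ncard : ℝ)) →
  (∀ T ⊆ B0, 9 / 10 * (J0.card : ℝ) * (T.card : ℝ) ≤ ((T.card : ℝ) + J0.card / 100) *
      ({x | x ∈ J0 ∧ ∃ y ∈ T, G x y}.ncard : ℝ)) →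
  ∀ S ⊆ J0, S.Nonempty → (∀ y ∈ B0, ∃ x ∈ S, G x y) ∨
    S.card + F ≤ {y | y ∈ B0 ∧ ∃ x ∈ S, G x y}.ncard

/-- the numbers `v` in `[1, m]` of a class `c` modulo `P` -/
def T_W : Prop := ∀ P q m c : ℕ, 0 < P → c < P → q * P ≤ m → m ≤ (q + 1) * P → 1 ≤ q →
  ∃ w0 N : ℕ, q ≤ N ∧ N ≤ q + 1 ∧
    ∀ w, (w0 ≤ w ∧ w < w0 + N) ↔ (1 ≤ c + P * w ∧ c + P * w ≤ m)

/-- Hall's theorem with classes. The slots are `x < m`; the slot `i * q + t`, `i < P`,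
`t < q - 1`, is regular of class `i`. -/
def T_glob : Prop := ∀ (P q m F : ℕ) (φ w0 N : ℕ → ℕ) (G : ℕ → ℕ → Prop),
  0 < P → 1 ≤ q → q * P ≤ m → m ≤ (q - 1) * P + F →
  (∀ i < P, φ i < P) → (∀ i < P, ∀ j < P, φ i = φ j → i = j) →
  (∀ c < P, ∀ w, (w0 c ≤ w ∧ w < w0 c + N c) ↔ (1 ≤ c + P * w ∧ c + P * w ≤ m)) →
  (∀ c < P, q - 1 ≤ N c) →
  (∀ x < m, F ≤ {v | v ∈ Icc 1 m ∧ G x v}.ncard) →
  (∀ i < P, ∀ S ⊆ range (q - 1), S.Nonempty →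
    (∀ w ∈ Ico (w0 (φ i)) (w0 (φ i) + N (φ i)), ∃ t ∈ S, G (i * q + t) (φ i + P * w)) ∨
    S.card + F ≤ {w | w ∈ Ico (w0 (φ i)) (w0 (φ i) + N (φ i)) ∧
      ∃ t ∈ S, G (i * q + t) (φ i + P * w)}.ncard) →
  (∀ I : Finset ℕ, I ⊆ range P → I.Nonempty → I ≠ range P → ∃ i ∈ I, ∃ j ∈ range P \ I,
    ∀ t < q - 1, F ≤ {w | w ∈ Ico (w0 (φ j)) (w0 (φ j) + N (φ j)) ∧
      G (i * q + t) (φ j + P * w)}.ncard) →
  ∃ f : ℕ → ℕ, (∀ x < m, 1 ≤ f x ∧ f x ≤ m ∧ G x (f x)) ∧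
    ∀ x < m, ∀ y < m, f x = f y → x = y

/-- order of the indices of the odd numbers: class by class, then the rest -/
def ga (P q j : ℕ) : ℕ := if j < q * P then (j % q) * P + j / q else j

/-- order of the odd numbers: `3 + 2 * ga`, and `1` at the position `H` -/
def aa (P q H j : ℕ) : ℕ := if j < H then 3 + 2 * ga P q j else 1

/-- circular arrangement, even case `n = 2 m`; the odd numbers are at the positions `j < m` -/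
def T_cirE : Prop := ∀ (m P q : ℕ) (R : ℕ → ℕ → Prop) (f : ℕ → ℕ), 2 ≤ m → 0 < P → 1 ≤ q →
  q * P ≤ m - 1 →
  (∀ j < m, 1 ≤ f j ∧ f j ≤ m ∧ R (aa P q (m - 1) j) (2 * f j) ∧
    R (2 * f j) (aa P q (m - 1) ((j + 1) % m))) →
  (∀ i < m, ∀ j < m, f i = f j → i = j) →
  ∃ π : ℕ → ℕ, (∀ i < 2 * m, 1 ≤ π i ∧ π i ≤ 2 * m) ∧
    (∀ i < 2 * m, ∀ j < 2 * m, π i = π j → i = j) ∧
    ∀ i < 2 * m, R (π i) (π ((i + 1) % (2 * m)))

/-- circular arrangement, odd case `n = 2 m + 1`; the pair `1, 3` closes the circle -/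
def T_cirO : Prop := ∀ (m P q : ℕ) (R : ℕ → ℕ → Prop) (f : ℕ → ℕ), 2 ≤ m → 0 < P → 1 ≤ q →
  q * P ≤ m → R 1 3 →
  (∀ j < m, 1 ≤ f j ∧ f j ≤ m ∧ R (aa P q m j) (2 * f j) ∧ R (2 * f j) (aa P q m (j + 1))) →
  (∀ i < m, ∀ j < m, f i = f j → i = j) →
  ∃ π : ℕ → ℕ, (∀ i < 2 * m + 1, 1 ≤ π i ∧ π i ≤ 2 * m + 1) ∧
    (∀ i < 2 * m + 1, ∀ j < 2 * m + 1, π i = π j → i = j) ∧
    ∀ i < 2 * m + 1, R (π i) (π ((i + 1) % (2 * m + 1)))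

/-- the consecutive odd numbers at a regular position -/
def T_aa : Prop := ∀ P q H i t : ℕ, 0 < P → i < P → t < q - 1 → q * P ≤ H →
  aa P q H (i * q + t) = 3 + 2 * (i + P * t) ∧
  aa P q H (i * q + t + 1) = 3 + 2 * (i + P * t) + 2 * P ∧ i * q + t + 1 < H

/-- the property of the numbers `x y - 1` -/
def QX (B n N : ℕ) : Prop :=
  (ArithmeticFunction.cardFactors N ≤ B ∧ ∀ p : ℕ, p.Prime → p ∣ N → n < p ^ B) ∧
  (B ≤ n → ArithmeticFunction.cardFactors N ≤ 352 ∧ ∀ p : ℕ, p.Prime → p ∣ N → n < p ^ 177)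

end Pool.Agent.APC
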