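import Mathlib
import Pool.Agent.Lib.MP_e0f8f3_nt.DefsB

set_option autoImplicit false

/-!
Definitions for the version with many primes.
-/

namespace Pool.Agent.APC

open Finset Filter
open Pool.Agent.BVall

/-! ### Primes in progressions -/

/-- `log n` on the primes, with the window `max 0 (1 - |log (n / X)|)` -/
noncomputable def fw (X : ℝ) (n : ℕ) : ℝ :=
  (if n.Prime then Real.log n else 0) * max 0 (1 - |Real.log (n / X)|)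

/-- the total mass -/
noncomputable def TT (X : ℝ) : ℝ := ∑ n ∈ Icc 1 ⌊3 * X⌋₊, fw X n

/-- the error in a residue class -/
noncomputable def ER (X : ℝ) (Q c : ℕ) : ℝ :=
  |∑ n ∈ (Icc 1 ⌊3 * X⌋₊).filter (fun n => n ≡ c [MOD Q]), fw X n - TT X / (Nat.totient Q : ℝ)|

/-- Bombieri-Vinogradov -/
def U_BV : Prop := ∀ (A W : ℕ) (ε : ℝ), 1 ≤ W → 0 < ε → ∀ᶠ X : ℝ in atTop,
  ∀ a : ℕ → ℕ, (∀ q, (a q).Coprime (W * q)) →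
  ∑ q ∈ (Icc 1 ⌊X ^ (1 / 2 - ε : ℝ)⌋₊).filter Squarefree, ER X (W * q) (a q) ≤
    X / (Real.log X) ^ A

/-- prime number theorem for the window -/
def U_M1 : Prop := ∃ c : ℝ, 0 < c ∧ ∀ᶠ X : ℝ in atTop, c * X ≤ TT X

/-- the primes which sift for the slot `(s, s + 2 P)` -/
noncomputable def LL (P k s : ℕ) : Finset ℕ :=
  (PK 4 k).filter (fun l => 65536 < l ∧ ¬ l ∣ s + 2 * P)

/-- the residue classes -/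
def U_cls : Prop := ∀ P : ℕ, IsP P → ∀ s : ℕ, s.Prime → 65536 < s → ∀ T : Finset ℕ,
  (∀ l ∈ T, l.Prime ∧ 65536 < l ∧ l < s ∧ ¬ l ∣ s + 2 * P) →
  ∃ c : ℕ, c.Coprime (2 * P * (s * ∏ l ∈ T, l)) ∧
    ∀ n : ℕ, n ≡ c [MOD 2 * P * (s * ∏ l ∈ T, l)] ↔
      ((n + 1) % (2 * P * s) = 0 ∧ ∀ l ∈ T, ((s + 2 * P) * ((n + 1) / s)) % l = 1)

/-- the lower bound sieve for the slot `(s, s + 2 P)` -/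
def U_sv : Prop := ∃ c1 : ℝ, 0 < c1 ∧ ∀ P : ℕ, IsP P → ∀ (k s : ℕ) (X : ℝ), 1 ≤ X →
  s.Prime → 2 ^ 2 ^ (4 + k) < s → ∀ c : Finset ℕ → ℕ,
  (∀ T ⊆ LL P k s, (c T).Coprime (2 * P * (s * ∏ l ∈ T, l)) ∧
    ∀ n : ℕ, n ≡ c T [MOD 2 * P * (s * ∏ l ∈ T, l)] ↔
      ((n + 1) % (2 * P * s) = 0 ∧ ∀ l ∈ T, ((s + 2 * P) * ((n + 1) / s)) % l = 1)) →
  c1 * (1 / 2) ^ (16 * k) * (TT X / (Nat.totient (2 * P * s) : ℝ))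
    - ∑ T ∈ (LL P k s).powerset.filter (fun T => ∏ l ∈ T, l ≤ lev 4 k),
        ER X (2 * P * (s * ∏ l ∈ T, l)) (c T) ≤
    ∑ n ∈ (Icc 1 ⌊3 * X⌋₊).filter (fun n => (n + 1) % (2 * P * s) = 0 ∧
      ∀ l ∈ LL P k s, ((s + 2 * P) * ((n + 1) / s)) % l ≠ 1), fw X n

/-- the sum of the errors -/
def U_err : Prop := ∀ P : ℕ, IsP P → ∀ (A : ℕ) (ε : ℝ), 0 < ε → ∀ᶠ X : ℝ in atTop,
  ∀ k S : ℕ, 2 ^ 2 ^ (4 + k) < S → ((9 * S * lev 4 k : ℕ) : ℝ) ≤ X ^ (1 / 2 - ε : ℝ) →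
  ∀ c : ℕ → Finset ℕ → ℕ, (∀ s : ℕ, s.Prime → S < s → s ≤ 9 * S → ∀ T ⊆ LL P k s,
    (c s T).Coprime (2 * P * (s * ∏ l ∈ T, l))) →
  ∑ s ∈ (Ioc S (9 * S)).filter Nat.Prime,
    ∑ T ∈ (LL P k s).powerset.filter (fun T => ∏ l ∈ T, l ≤ lev 4 k),
      ER X (2 * P * (s * ∏ l ∈ T, l)) (c s T) ≤ X / (Real.log X) ^ A

/-- many primes in `(S, 9 S]` -/
def U_prs : Prop := ∃ c : ℝ, 0 < c ∧ ∀ᶠ S : ℕ in atTop,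
  c * S / Real.log S ≤ (((Ioc S (9 * S)).filter Nat.Prime).card : ℝ)

/-- the choice of the parameters -/
def U_par : Prop := ∀ ε M : ℝ, 0 < ε → ε < 1 → ∃ K n0 : ℕ, ∀ n k : ℕ, n0 ≤ n →
  (2 ^ 2 ^ (4 + k)) ^ K ≤ n → ∃ S : ℕ, M ≤ S ∧ M ≤ Real.log n ∧ 65536 < S ∧
    2 ^ 2 ^ (4 + k) < S ∧
    ((9 * S * lev 4 k : ℕ) : ℝ) ≤ (n * S / 6 : ℝ) ^ (1 / 2 - ε / 16 : ℝ) ∧
    (9 * S : ℝ) ≤ (n : ℝ) ^ (1 - ε / 4) ∧ M * (n : ℝ) ^ (1 - ε) * Real.log n ≤ S ∧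
    M * S * Real.log n ^ 20 ≤ n ∧ (2 : ℝ) ^ k ≤ Real.log n ∧ S ≤ n

/-- many slots with prime values: intermediate form with an average error bound.
`X = n S / 6`; for all but few primes `s` in `(S, 9 S]` there are many primes `p = 2 s b - 1`. -/
def U_avg : Prop := ∀ P : ℕ, IsP P → ∀ ε : ℝ, 0 < ε → ε < 1 → ∃ K n0 : ℕ, ∀ n k : ℕ, n0 ≤ n →
  (2 ^ 2 ^ (4 + k)) ^ K ≤ n → ∃ (S : ℕ) (Sg : Finset ℕ), Sg ⊆ (Ioc S (9 * S)).filter Nat.Prime ∧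
    (9 * S : ℝ) ≤ (n : ℝ) ^ (1 - ε / 4) ∧ (n : ℝ) ^ (1 - ε) ≤ Sg.card ∧ 2 ^ 2 ^ (4 + k) < S ∧
    65536 < S ∧ ∀ s ∈ Sg, 9 * S ≤ ((Icc 1 (n * S)).filter (fun p => p.Prime ∧
      2 * (p + 1) ≤ n * s ∧ 2 ^ 2 ^ (4 + k) < p ∧ (p + 1) % (2 * P * s) = 0 ∧
      ∀ l ∈ LL P k s, ((s + 2 * P) * ((p + 1) / s)) % l ≠ 1)).card

/-- many slots with prime values -/
def U_prm : Prop := ∀ P : ℕ, IsP P → ∀ ε : ℝ, 0 < ε → ε < 1 → ∃ K n0 : ℕ, ∀ n k : ℕ, n0 ≤ n →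
  (2 ^ 2 ^ (4 + k)) ^ K ≤ n → ∃ (Sg : Finset ℕ) (b : ℕ → ℕ),
    (n : ℝ) ^ (1 - ε) ≤ Sg.card ∧
    (∀ s ∈ Sg, s.Prime ∧ 65536 < s ∧ (s : ℝ) ≤ (n : ℝ) ^ (1 - ε / 4) ∧ 1 ≤ b s ∧
      2 * b s ≤ n - 1 ∧ (s * (2 * b s) - 1).Prime ∧ Fr k s (2 * b s) ∧
      Fr k (s + 2 * P) (2 * b s)) ∧
    ∀ s ∈ Sg, ∀ t ∈ Sg, b s = b t → s = t

/-! ### Robust matchings -/

/-- degrees, with their size -/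
def V_dega : Prop := ∃ C : ℕ, ∀ (n N a : ℕ) (Rl : ℕ → ℕ → Prop),
  C * (2 ^ 2 ^ (4 + n)) ^ 88 ≤ N →
  (∀ p y, Rl p y ↔ Rl p (y % qq p)) → (∀ p, p.Prime → {y | y < qq p ∧ Rl p y}.ncard ≤ 2) →
  N ≤ C * 2 ^ 2 ^ (4 + n) * {y | y ∈ Ico a (a + N) ∧ ∀ p ∈ PK 4 n, ¬ Rl p y}.ncard

/-- degrees for any two numbers, with their size -/
def V_deg : Prop := ∀ P : ℕ, IsP P → ∃ C : ℕ, ∀ n N a x y c : ℕ,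
  C * (2 ^ 2 ^ (4 + n)) ^ 88 ≤ N →
  (∀ p, p.Prime → p ∣ P → (x * (2 * c)) % p ≠ 1 ∧ (y * (2 * c)) % p ≠ 1) →
  N ≤ C * 2 ^ 2 ^ (4 + n) *
    {w | w ∈ Ico a (a + N) ∧ Fr n x (2 * (c + P * w)) ∧ Fr n y (2 * (c + P * w))}.ncard

/-- matching inside a class -/
def V_in : Prop := ∃ M0 : ℕ, ∀ F D : ℕ, 10 * (F + 10) ≤ D →
  ∀ (G : ℕ → ℕ → Prop) (J0 B0 : Finset ℕ),
  M0 ≤ B0.card → J0.card ≤ B0.card + 2 → B0.card ≤ J0.card + 2 →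
  (∀ x ∈ J0, D ≤ {y | y ∈ B0 ∧ G x y}.ncard) → (∀ y ∈ B0, D ≤ {x | x ∈ J0 ∧ G x y}.ncard) →
  (∀ S ⊆ J0, 9 / 10 * (B0.card : ℝ) * (S.card : ℝ) ≤ ((S.card : ℝ) + B0.card / 100) *
      ({y | y ∈ B0 ∧ ∃ x ∈ S, G x y}.ncard : ℝ)) →
  (∀ T ⊆ B0, 9 / 10 * (J0.card : ℝ) * (T.card : ℝ) ≤ ((T.card : ℝ) + J0.card / 100) *
      ({x | x ∈ J0 ∧ ∃ y ∈ T, G x y}.ncard : ℝ)) →
  ∀ S ⊆ J0, S.Nonempty → (∀ y ∈ B0, ∃ x ∈ S, G x y) ∨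
    S.card + F ≤ {y | y ∈ B0 ∧ ∃ x ∈ S, G x y}.ncard

/-- Hall's theorem with classes and removed sets `Sx`, `Bx` -/
def V_glob : Prop := ∀ (P q m F r : ℕ) (φ w0 N : ℕ → ℕ) (G : ℕ → ℕ → Prop) (Sx Bx : Finset ℕ),
  0 < P → 1 ≤ q → q * P ≤ m → m + r ≤ (q - 1) * P + F →
  Sx ⊆ range m → Bx ⊆ Icc 1 m → Sx.card = Bx.card → Bx.card ≤ r →
  (∀ i < P, φ i < P) → (∀ i < P, ∀ j < P, φ i = φ j → i = j) →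
  (∀ c < P, ∀ w, (w0 c ≤ w ∧ w < w0 c + N c) ↔ (1 ≤ c + P * w ∧ c + P * w ≤ m)) →
  (∀ c < P, q - 1 ≤ N c) →
  (∀ x < m, F ≤ {v | v ∈ Icc 1 m ∧ G x v}.ncard) →
  (∀ i < P, ∀ S ⊆ range (q - 1), S.Nonempty →
    (∀ w ∈ Ico (w0 (φ i)) (w0 (φ i) + N (φ i)), ∃ t ∈ S, G (i * q + t) (φ i + P * w)) ∨
    S.card + F ≤ {w | w ∈ Ico (w0 (φ i)) (w0 (φ i) + N (φ i)) ∧
      ∃ t ∈ S, G (i * q + t) (φ i + P * w)}.ncard) →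
  (∀ I : Finset ℕ, I ⊆ range P → I.Nonempty → I ≠ range P → ∃ i ∈ I, ∃ j ∈ range P \ I,
    ∀ t < q - 1, F ≤ {w | w ∈ Ico (w0 (φ j)) (w0 (φ j) + N (φ j)) ∧
      G (i * q + t) (φ j + P * w)}.ncard) →
  ∃ f : ℕ → ℕ, (∀ x ∈ range m \ Sx, f x ∈ Icc 1 m \ Bx ∧ G x (f x)) ∧
    ∀ x ∈ range m \ Sx, ∀ y ∈ range m \ Sx, f x = f y → x = y

/-- circular arrangement, even case, with the positions -/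
def V_cirE : Prop := ∀ (m P q : ℕ) (R : ℕ → ℕ → Prop) (f : ℕ → ℕ), 2 ≤ m → 0 < P → 1 ≤ q →
  q * P ≤ m - 1 →
  (∀ j < m, 1 ≤ f j ∧ f j ≤ m ∧ R (aa P q (m - 1) j) (2 * f j) ∧
    R (2 * f j) (aa P q (m - 1) ((j + 1) % m))) →
  (∀ i < m, ∀ j < m, f i = f j → i = j) →
  ∃ π : ℕ → ℕ, (∀ i < 2 * m, 1 ≤ π i ∧ π i ≤ 2 * m) ∧
    (∀ i < 2 * m, ∀ j < 2 * m, π i = π j → i = j) ∧
    (∀ i < 2 * m, R (π i) (π ((i + 1) % (2 * m)))) ∧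
    ∀ j < m, π (2 * j) = aa P q (m - 1) j ∧ π (2 * j + 1) = 2 * f j

/-- circular arrangement, odd case, with the positions -/
def V_cirO : Prop := ∀ (m P q : ℕ) (R : ℕ → ℕ → Prop) (f : ℕ → ℕ), 2 ≤ m → 0 < P → 1 ≤ q →
  q * P ≤ m → R 1 3 →
  (∀ j < m, 1 ≤ f j ∧ f j ≤ m ∧ R (aa P q m j) (2 * f j) ∧ R (2 * f j) (aa P q m (j + 1))) →
  (∀ i < m, ∀ j < m, f i = f j → i = j) →
  ∃ π : ℕ → ℕ, (∀ i < 2 * m + 1, 1 ≤ π i ∧ π i ≤ 2 * m + 1) ∧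
    (∀ i < 2 * m + 1, ∀ j < 2 * m + 1, π i = π j → i = j) ∧
    (∀ i < 2 * m + 1, R (π i) (π ((i + 1) % (2 * m + 1)))) ∧
    ∀ j < m, π (2 * j) = aa P q m j ∧ π (2 * j + 1) = 2 * f j

end Pool.Agent.APC
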