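import Mathlib
import Pool.Agent.Lib.MP_e0f8f3_nt.DefsC

set_option autoImplicit false

/-!
Definitions for the version with a long arc of primes.
-/

namespace Pool.Agent.APC

open Finset Filter
open Pool.Agent.BVall

/-- a long path in a dense bipartite graph -/
def Y_grp : Prop := ∀ (A B : Finset ℕ) (E : ℕ → ℕ → Prop) (d D : ℕ), A.Nonempty → 1 ≤ d →
  2 * d ≤ D → 2 * d * B.card ≤ D * A.card → (∀ a ∈ A, D ≤ {b | b ∈ B ∧ E a b}.ncard) →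
  ∃ s b : ℕ → ℕ, (∀ j ≤ d - 1, s j ∈ A) ∧
    (∀ j < d - 1, b j ∈ B ∧ E (s j) (b j) ∧ E (s (j + 1)) (b j)) ∧
    (∀ i ≤ d - 1, ∀ j ≤ d - 1, s i = s j → i = j) ∧
    ∀ i < d - 1, ∀ j < d - 1, b i = b j → i = j

/-- a long path of primes -/
def Y_path : Prop := ∀ ε : ℝ, 0 < ε → ε < 1 → ∃ n0 : ℕ, ∀ n : ℕ, n0 ≤ n →
  ∃ (L : ℕ) (s b : ℕ → ℕ), (n : ℝ) ^ (1 - ε) ≤ L ∧
    (∀ j ≤ L, (s j).Prime ∧ 65536 < s j ∧ n < s j ^ 4 ∧ (s j : ℝ) ≤ (n : ℝ) ^ (1 - ε / 12)) ∧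
    (∀ j < L, 1 ≤ b j ∧ 2 * b j ≤ n - 1 ∧ (s j * (2 * b j) - 1).Prime ∧
      (s (j + 1) * (2 * b j) - 1).Prime) ∧
    (∀ i ≤ L, ∀ j ≤ L, s i = s j → i = j) ∧ ∀ i < L, ∀ j < L, b i = b j → i = j

/-- greedy matching -/
def Y_gre : Prop := ∀ (J U : Finset ℕ) (m : ℕ) (G : ℕ → ℕ → Prop),
  (∀ x ∈ J, J.card + U.card ≤ {v | v ∈ Icc 1 m ∧ G x v}.ncard) →
  ∃ g : ℕ → ℕ, (∀ x ∈ J, g x ∈ Icc 1 m ∧ g x ∉ U ∧ G x (g x)) ∧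
    ∀ x ∈ J, ∀ y ∈ J, g x = g y → x = y

/-- new order: the elements `s 0, ..., s L` are moved to the places just before `H` -/
def Y_ord : Prop := ∀ (H L : ℕ) (a s : ℕ → ℕ), L + 1 < H →
  (∀ j ≤ L, ∃ x, 0 < x ∧ x < H ∧ a x = s j) →
  (∀ i ≤ H, ∀ j ≤ H, a i = a j → i = j) → (∀ i ≤ L, ∀ j ≤ L, s i = s j → i = j) →
  ∃ o τ : ℕ → ℕ, (∀ i ≤ H, ∀ j ≤ H, o i = o j → i = j) ∧ (∀ j ≤ H, ∃ x ≤ H, o j = a x) ∧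
    o H = a H ∧ o 0 = a 0 ∧ (∀ j ≤ L, o (H - (L + 1) + j) = s j) ∧
    ∀ x, x + 1 < H → (∀ j ≤ L, a x ≠ s j ∧ a (x + 1) ≠ s j) →
      τ x + 1 < H - (L + 1) ∧ o (τ x) = a x ∧ o (τ x + 1) = a (x + 1)

/-- circular arrangement from an order `o` of the odd numbers, even case -/
def Y_cirE : Prop := ∀ (m : ℕ) (R : ℕ → ℕ → Prop) (o f : ℕ → ℕ), 2 ≤ m →
  (∀ j < m, Odd (o j) ∧ o j ≤ 2 * m ∧ 1 ≤ f j ∧ f j ≤ m ∧ R (o j) (2 * f j) ∧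
    R (2 * f j) (o ((j + 1) % m))) →
  (∀ i < m, ∀ j < m, o i = o j → i = j) → (∀ i < m, ∀ j < m, f i = f j → i = j) →
  ∃ π : ℕ → ℕ, (∀ i < 2 * m, 1 ≤ π i ∧ π i ≤ 2 * m) ∧
    (∀ i < 2 * m, ∀ j < 2 * m, π i = π j → i = j) ∧
    (∀ i < 2 * m, R (π i) (π ((i + 1) % (2 * m)))) ∧
    ∀ j < m, π (2 * j) = o j ∧ π (2 * j + 1) = 2 * f j

/-- circular arrangement from an order `o` of the odd numbers, odd case -/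
def Y_cirO : Prop := ∀ (m : ℕ) (R : ℕ → ℕ → Prop) (o f : ℕ → ℕ), 2 ≤ m → R (o m) (o 0) →
  (∀ j ≤ m, Odd (o j) ∧ o j ≤ 2 * m + 1) →
  (∀ j < m, 1 ≤ f j ∧ f j ≤ m ∧ R (o j) (2 * f j) ∧ R (2 * f j) (o (j + 1))) →
  (∀ i ≤ m, ∀ j ≤ m, o i = o j → i = j) → (∀ i < m, ∀ j < m, f i = f j → i = j) →
  ∃ π : ℕ → ℕ, (∀ i < 2 * m + 1, 1 ≤ π i ∧ π i ≤ 2 * m + 1) ∧
    (∀ i < 2 * m + 1, ∀ j < 2 * m + 1, π i = π j → i = j) ∧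
    (∀ i < 2 * m + 1, R (π i) (π ((i + 1) % (2 * m + 1)))) ∧
    (∀ j ≤ m, π (2 * j) = o j) ∧ ∀ j < m, π (2 * j + 1) = 2 * f j

/-- the old order is injective, odd and bounded -/
def Y_aa : Prop := ∀ P q H : ℕ, 0 < P → 1 ≤ q → q * P ≤ H →
  (∀ j, Odd (aa P q H j)) ∧ (∀ j ≤ H, aa P q H j ≤ 2 * H + 1) ∧
  (∀ i ≤ H, ∀ j ≤ H, aa P q H i = aa P q H j → i = j) ∧ aa P q H H = 1 ∧
  (0 < H → aa P q H 0 = 3) ∧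
  ∀ u, 3 + 2 * u ≤ 2 * H + 1 → ∃ x < H, aa P q H x = 3 + 2 * u

end Pool.Agent.APC
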