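import Mathlib
import Pool.Agent.Lib.MP_e0f8f3_nt.DefsD

set_option autoImplicit false

/-!
Definitions for the version with an absolute bound and a long arc of primes.
-/

namespace Pool.Agent.APC

open Finset Filter
open Pool.Agent.BVall

/-- a lower bound for the sieve product -/
def S_low2 : Prop := ∃ C : ℕ, ∀ (n : ℕ) (A : ℕ → Finset ℕ),
  (∀ p, p.Prime → A p ⊆ range (qq p) ∧ (A p).card ≤ 4) →
  1 ≤ (C : ℝ) * (2 : ℝ) ^ (16 * n) * ∏ p ∈ PK 4 n, (1 - ((A p).card : ℝ) / (qq p : ℝ))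

/-- degrees, with their size -/
def V_dega2 : Prop := ∃ C : ℕ, ∀ (n N a : ℕ) (Rl : ℕ → ℕ → Prop),
  C * (2 ^ 2 ^ (4 + n)) ^ 88 ≤ N →
  (∀ p y, Rl p y ↔ Rl p (y % qq p)) → (∀ p, p.Prime → {y | y < qq p ∧ Rl p y}.ncard ≤ 2) →
  N ≤ C * 2 ^ (16 * n) * {y | y ∈ Ico a (a + N) ∧ ∀ p ∈ PK 4 n, ¬ Rl p y}.ncard

/-- degrees for any two numbers, with their size -/
def V_deg2 : Prop := ∀ P : ℕ, IsP P → ∃ C : ℕ, ∀ n N a x y c : ℕ,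
  C * (2 ^ 2 ^ (4 + n)) ^ 88 ≤ N →
  (∀ p, p.Prime → p ∣ P → (x * (2 * c)) % p ≠ 1 ∧ (y * (2 * c)) % p ≠ 1) →
  N ≤ C * 2 ^ (16 * n) *
    {w | w ∈ Ico a (a + N) ∧ Fr n x (2 * (c + P * w)) ∧ Fr n y (2 * (c + P * w))}.ncard

end Pool.Agent.APC
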