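import Pool.Agent.Lib.MP_0da313_nt.CM.B
import Pool.Agent.Lib.MP_e0f8f3_nt.DefsE

set_option autoImplicit false

/-!
Definitions for the version with an arc of `n / (log n) ^ D` primes: the theorem of Bombieri and
Vinogradov for the primes with moduli up to `X ^ (1 / 2) / (log X) ^ B`.
-/

namespace Pool.Agent.APC

open Finset Filter
open ArithmeticFunction (vonMangoldt)
open Pool.Agent.MP89da58 (tri primChars)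
open Pool.Agent.CH (thP)
open Pool.Agent.CM

/-- one block, large conductors -/
def F_blk : Prop := ∀ (lam : ℝ) (A : ℕ), 1 ≤ lam → ∃ B : ℕ,
  ∀ᶠ X : ℝ in atTop, ∀ (R M N : ℕ) (a b : ℕ → ℂ), (Real.log X) ^ B ≤ R →
  (R : ℝ) * (Real.log X) ^ B ≤ X ^ (1 / 2 : ℝ) → (Real.log X) ^ B ≤ M → (Real.log X) ^ B ≤ N →
  ((M * N : ℕ) : ℝ) ≤ 3 * X →
  ∑ m ∈ Icc 1 (2 * M), ‖a m‖ ^ 2 ≤ M * (Real.log X) ^ 6 →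
  ∑ n ∈ Icc 1 (2 * N), ‖b n‖ ^ 2 ≤ N * (Real.log X) ^ 6 →
  ∑ p ∈ primChars R, ‖∑ m ∈ Icc 1 (2 * M), ∑ n ∈ Icc 1 (2 * N),
      a m * b n * p.2 ((m * n : ℕ) : ZMod p.1) * (wd lam X (m * n) : ℂ)‖
    ≤ R * X / (Real.log X) ^ A

/-- large conductors for the von Mangoldt function -/
def F_LL : Prop := ∀ (lam : ℝ) (A : ℕ), 1 ≤ lam → ∃ B : ℕ,
  ∀ᶠ X : ℝ in atTop, ∀ R : ℕ, (Real.log X) ^ B ≤ R →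
  (R : ℝ) * (Real.log X) ^ B ≤ X ^ (1 / 2 : ℝ) →
  ∑ p ∈ primChars R, ‖∑ n ∈ Icc 1 ⌊3 * X⌋₊, (vonMangoldt n : ℂ) * p.2 (n : ZMod p.1) *
    (wd lam X n : ℂ)‖ ≤ R * X / (Real.log X) ^ A

/-- large conductors for the primes -/
def F_LC : Prop := ∀ (lam : ℝ) (A : ℕ), 1 ≤ lam → ∃ B : ℕ,
  ∀ᶠ X : ℝ in atTop, ∀ R s : ℕ, (Real.log X) ^ B ≤ R →
  (R : ℝ) * (Real.log X) ^ B ≤ X ^ (1 / 2 : ℝ) → 1 ≤ s → (s : ℝ) ≤ X ^ (2 / 3 : ℝ) →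
  ∑ p ∈ primChars R, ‖Tw thP lam X s p.2‖ ≤ R * X / (Real.log X) ^ A

/-- all conductors -/
def F_con : Prop := ∀ (lam : ℝ) (A : ℕ), 1 ≤ lam → ∃ B : ℕ,
  ∀ᶠ X : ℝ in atTop, ∀ s Y : ℕ, 1 ≤ s → (s : ℝ) ≤ X ^ (2 / 3 : ℝ) →
  (Y : ℝ) * (Real.log X) ^ B ≤ X ^ (1 / 2 : ℝ) →
  ∑ r ∈ Icc 2 Y, 1 / (Nat.totient r : ℝ) * pS thP lam X s r ≤ X / (Real.log X) ^ A

/-- the theorem of Bombieri and Vinogradov for the primes, full range -/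
def F_bv : Prop := ∀ A : ℕ, ∃ B : ℕ, ∀ᶠ X : ℝ in atTop, ∀ (Y : ℕ) (a : ℕ → ℕ),
  (Y : ℝ) * (Real.log X) ^ B ≤ X ^ (1 / 2 : ℝ) → (∀ q, (a q).Coprime q) →
  ∑ q ∈ Icc 1 Y, er (fun n => thP n * wd 1 X n) ⌊3 * X⌋₊ q (a q) ≤ X / (Real.log X) ^ A

/-- the same in the notation of `ER` -/
def F_ER : Prop := ∀ A : ℕ, ∃ B : ℕ, ∀ᶠ X : ℝ in atTop, ∀ (Y : ℕ) (a : ℕ → ℕ),
  (Y : ℝ) * (Real.log X) ^ B ≤ X ^ (1 / 2 : ℝ) → (∀ q, (a q).Coprime q) →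
  ∑ q ∈ Icc 1 Y, ER X q (a q) ≤ X / (Real.log X) ^ A

/-- a very long path of primes -/
def F_path : Prop := ∃ D n0 : ℕ, ∀ n : ℕ, n0 ≤ n →
  ∃ (L : ℕ) (s b : ℕ → ℕ), (n : ℝ) / (Real.log n) ^ D ≤ L ∧
    (∀ j ≤ L, (s j).Prime ∧ 65536 < s j ∧ n < s j ^ 4 ∧
      (s j : ℝ) ≤ (n : ℝ) / (Real.log n) ^ 20) ∧
    (∀ j < L, 1 ≤ b j ∧ 2 * b j ≤ n - 1 ∧ (s j * (2 * b j) - 1).Prime ∧
      (s (j + 1) * (2 * b j) - 1).Prime) ∧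
    (∀ i ≤ L, ∀ j ≤ L, s i = s j → i = j) ∧ ∀ i < L, ∀ j < L, b i = b j → i = j

end Pool.Agent.APC
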