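import Pool.Agent.Lib.MP_e0f8f3_nt.DefsB

set_option autoImplicit false

/-!
Assembly of the strong form.
-/

namespace Pool.Agent.APC

open Finset
open Pool.Agent.BVall

/-- the strong form -/
def S_strong : Prop := ∃ B : ℕ, ∀ n : ℕ, 3 ≤ n → ∃ π : ℕ → ℕ,
  (∀ i < n, 1 ≤ π i ∧ π i ≤ n) ∧ (∀ i < n, ∀ j < n, π i = π j → i = j) ∧
  ∀ i < n, QX B n (π i * π ((i + 1) % n) - 1) ∨ (Odd n ∧ π i = 1 ∧ π ((i + 1) % n) = 3)

/-- the good pairs of a slot and an even number -/
def GG (P k q H : ℕ) (nx : ℕ → ℕ) (x v : ℕ) : Prop :=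
  Fr k (aa P q H x) (2 * v) ∧ Fr k (aa P q H (nx x)) (2 * v)

lemma GG_iff (hgood : T_good) (haa : T_aa) {P k q H : ℕ} (hP : IsP P) (hqH : q * P ≤ H)
    {nx : ℕ → ℕ} (hnx : ∀ x, x + 1 < H → nx x = x + 1) {i t c w : ℕ} (hi : i < P) (ht : t < q - 1)
    (hc : Cm P i c) :
    GG P k q H nx (i * q + t) (c + P * w) ↔ ∀ p ∈ PK 4 k, ¬ RlB P i c p t w := by
  have hP0 : 0 < P := by have := hP.2.2.1; omega
  obtain ⟨a1, a2, a3⟩ := haa P q H i t hP0 hi ht hqH
  unfold GG
  rw [hnx _ a3, a1, a2]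
  exact hgood P hP i c k t w hc

/-- matchings, strong form -/
lemma matB (hcls : T_cls) (htwo : T_two) (hrl : T_rl) (hgood : T_good) (hdega : T_dega)
    (hdeg : T_deg) (hin : T_in) (hWd : T_W) (hgl : T_glob) (haa : T_aa) (he : S_exp) :
    ∀ P : ℕ, IsP P → ∃ C : ℕ, ∀ (k q m H : ℕ) (nx : ℕ → ℕ), q * P ≤ H → H ≤ m →
      m ≤ (q + 1) * P → C * (2 ^ 2 ^ (4 + k)) ^ 88 ≤ q - 1 →
      (∀ x, x + 1 < H → nx x = x + 1) →
      ∃ f : ℕ → ℕ, (∀ x < m, 1 ≤ f x ∧ f x ≤ m ∧ GG P k q H nx x (f x)) ∧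
        ∀ x < m, ∀ y < m, f x = f y → x = y := by
  intro P hP
  have hP3 : 3 ≤ P := hP.2.2.1
  obtain ⟨φ, p1, p2, p3, p4⟩ := hcls P hP
  obtain ⟨D, M0, hin⟩ := hin (2 * P)
  obtain ⟨C1, hdeg⟩ := hdeg P hP (D + 2 * P)
  obtain ⟨C2, hdega⟩ := hdega (D + 2 * P)
  obtain ⟨C3, he⟩ := he
  refine ⟨C1 + C2 + C3 + M0 + 10, fun k q m H nx hqH hHm hmq hC hnx => ?_⟩
  set X : ℕ := 2 ^ 2 ^ (4 + k) with hX
  have hX1 : 1 ≤ X := Nat.one_le_two_pow
  have hmono : ∀ C' : ℕ, C' ≤ C1 + C2 + C3 + M0 + 10 → C' * X ^ 88 ≤ q - 1 := fun C' h =>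
    (Nat.mul_le_mul_right _ h).trans hC
  have hbase : C1 + C2 + C3 + M0 + 10 ≤ q - 1 := by
    have h4 : 1 ≤ X ^ 88 := Nat.one_le_pow _ _ hX1
    calc C1 + C2 + C3 + M0 + 10 = (C1 + C2 + C3 + M0 + 10) * 1 := (mul_one _).symm
      _ ≤ (C1 + C2 + C3 + M0 + 10) * X ^ 88 := Nat.mul_le_mul_left _ h4
      _ ≤ q - 1 := hC
  have hq1 : 1 ≤ q := by omega
  have hqm : q * P ≤ m := hqH.trans hHm
  have hWex : ∀ c, ∃ w0 N : ℕ, c < P → (q ≤ N ∧ N ≤ q + 1 ∧
      ∀ w, (w0 ≤ w ∧ w < w0 + N) ↔ (1 ≤ c + P * w ∧ c + P * w ≤ m)) := by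
    intro c
    by_cases hc : c < P
    · obtain ⟨w0, N, h⟩ := hWd P q m c (by omega) hc hqm hmq hq1
      exact ⟨w0, N, fun _ => h⟩
    · exact ⟨0, 0, fun h => absurd h hc⟩
  choose w0 N hWN using hWex
  have hN1 : ∀ c < P, q ≤ N c := fun c hc => (hWN c hc).1
  have hN2 : ∀ c < P, N c ≤ q + 1 := fun c hc => (hWN c hc).2.1
  have hsplit : (q + 1) * P = (q - 1) * P + 2 * P := by
    obtain ⟨r, rfl⟩ : ∃ r, q = r + 1 := ⟨q - 1, by omega⟩
    rw [Nat.add_sub_cancel]
    ring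
  -- degrees on the slot side
  have hdegS : ∀ i c t, i < P → c < P → Cm P i c → t < q - 1 →
      D + 2 * P ≤ {w | w ∈ Ico (w0 c) (w0 c + N c) ∧
        GG P k q H nx (i * q + t) (c + P * w)}.ncard := by
    intro i c t hi hc hcm ht
    obtain ⟨-, r2, r3, -⟩ := hrl P hP i c
    have h := hdega k (N c) (w0 c) (fun p w => RlB P i c p t w)
      ((hmono C2 (by omega)).trans (by have := hN1 c hc; omega)) (fun p w => r2 p t w)
      (fun p hp => r3 p t hp)
    have e : {w | w ∈ Ico (w0 c) (w0 c + N c) ∧ GG P k q H nx (i * q + t) (c + P * w)} =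
        {w | w ∈ Ico (w0 c) (w0 c + N c) ∧ ∀ p ∈ PK 4 k, ¬ RlB P i c p t w} := by
      ext w
      simp only [Set.mem_ofPred_eq]
      rw [GG_iff hgood haa hP hqH hnx hi ht hcm]
    rw [e]
    exact h
  obtain ⟨f, hf1, hf2⟩ := hgl P q m (2 * P) φ w0 N (GG P k q H nx) (by omega) hq1 hqm
    (by omega) p1 p2 (fun c hc w => (hWN c hc).2.2 w) (fun c hc => by have := hN1 c hc; omega)
    (by
      intro x hx
      obtain ⟨c, hc, hcc⟩ := htwo P hP (aa P q H x) (aa P q H (nx x))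
      have h := hdeg k (N c) (w0 c) (aa P q H x) (aa P q H (nx x)) c
        ((hmono C1 (by omega)).trans (by have := hN1 c hc; omega)) hcc
      refine le_trans (by omega) (h.trans ?_)
      apply Set.ncard_le_ncard_of_injOn (fun w => c + P * w)
      · intro w hw
        simp only [Set.mem_ofPred_eq, mem_Ico, mem_Icc] at hw ⊢
        have h2 := ((hWN c hc).2.2 w).1 hw.1
        exact ⟨h2, hw.2⟩
      · intro a _ b _ hab
        simp only at hab
        have h5 : P * a = P * b := by omega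
        exact Nat.eq_of_mul_eq_mul_left (by omega) h5)
    (by
      intro i hi S hS hSne
      have hci : φ i < P := p1 i hi
      have hcm : Cm P i (φ i) := p3 i hi
      obtain ⟨r1, r2, r3, r4⟩ := hrl P hP i (φ i)
      have hN1i := hN1 _ hci
      have hN2i := hN2 _ hci
      have hB0 : (Ico (w0 (φ i)) (w0 (φ i) + N (φ i))).card = N (φ i) := by simp
      have hJ0 : (range (q - 1)).card = q - 1 := by simp
      have hGG : ∀ t < q - 1, ∀ w, GG P k q H nx (i * q + t) (φ i + P * w) ↔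
          ∀ p ∈ PK 4 k, ¬ RlB P i (φ i) p t w := fun t ht w =>
        GG_iff hgood haa hP hqH hnx hi ht hcm
      have key := hin (fun t w => GG P k q H nx (i * q + t) (φ i + P * w)) (range (q - 1))
        (Ico (w0 (φ i)) (w0 (φ i) + N (φ i))) (by rw [hB0]; omega) (by rw [hB0, hJ0]; omega)
        (by rw [hB0, hJ0]; omega)
        (by
          intro t ht
          exact le_trans (by omega) (hdegS i (φ i) t hi hci hcm (mem_range.1 ht)))
        (by
          intro w hw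
          have h := hdega k (q - 1) 0 (fun p t => RlB P i (φ i) p t w)
            (hmono C2 (by omega)) (fun p t => r1 p t w) (fun p hp => r4 p w hp)
          refine le_trans (by omega) (h.trans (le_of_eq ?_))
          congr 1
          ext t
          simp only [Set.mem_ofPred_eq, mem_Ico, mem_range, zero_add, Nat.zero_le, true_and]
          constructor
          · rintro ⟨h1, h2⟩
            exact ⟨h1, (hGG t h1 w).2 h2⟩
          · rintro ⟨h1, h2⟩
            exact ⟨h1, (hGG t h1 w).1 h2⟩)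
        (by
          intro T hT
          rw [hB0]
          have h := he k (N (φ i)) (q - 1) 0 (w0 (φ i)) (RlB P i (φ i))
            ((hmono C3 (by omega)).trans (by omega)) (by omega) r1 r2 r3 r4 T
            (by rw [zero_add, ← range_eq_Ico]; exact hT)
          have e : {y | y ∈ Ico (w0 (φ i)) (w0 (φ i) + N (φ i)) ∧ ∃ x ∈ T,
              GG P k q H nx (i * q + x) (φ i + P * y)} =
              {y | y ∈ Ico (w0 (φ i)) (w0 (φ i) + N (φ i)) ∧ ∃ x ∈ T,
                ∀ p ∈ PK 4 k, ¬ RlB P i (φ i) p x y} := by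
            ext y
            simp only [Set.mem_ofPred_eq]
            refine and_congr_right fun _ => exists_congr fun x => and_congr_right fun hx => ?_
            exact hGG x (mem_range.1 (hT hx)) y
          rw [e]
          exact h)
        (by
          intro T hT
          rw [hJ0]
          have h := he k (q - 1) (N (φ i)) (w0 (φ i)) 0 (fun p w t => RlB P i (φ i) p t w)
            (hmono C3 (by omega)) (by omega) (fun p w t => r2 p t w) (fun p w t => r1 p t w)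
            (fun p w hp => r4 p w hp) (fun p t hp => r3 p t hp) T hT
          have e : {x | x ∈ range (q - 1) ∧ ∃ y ∈ T,
              GG P k q H nx (i * q + x) (φ i + P * y)} =
              {x | x ∈ Ico 0 (0 + (q - 1)) ∧ ∃ y ∈ T,
                ∀ p ∈ PK 4 k, ¬ RlB P i (φ i) p x y} := by
            ext x
            simp only [Set.mem_ofPred_eq, mem_Ico, mem_range, zero_add, Nat.zero_le, true_and]
            refine and_congr_right fun hx => exists_congr fun y => and_congr_right fun _ => ?_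
            exact hGG x hx y
          rw [e]
          exact h) S hS hSne
      exact key)
    (by
      intro I hI hIne hIr
      obtain ⟨i, hi, j, hj, hcm⟩ := p4 I hI hIne hIr
      refine ⟨i, hi, j, hj, fun t ht => ?_⟩
      have hi' := mem_range.1 (hI hi)
      have hj' := mem_range.1 (mem_sdiff.1 hj).1
      exact le_trans (by omega) (hdegS i (φ j) t hi' (p1 j hj') hcm ht))
  exact ⟨f, hf1, hf2⟩

lemma cardFactors_le_self (N : ℕ) : ArithmeticFunction.cardFactors N ≤ N := by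
  rcases Nat.eq_zero_or_pos N with h | h
  · subst h; simp
  · rw [ArithmeticFunction.cardFactors_apply]
    have h1 : 2 ^ N.primeFactorsList.length ≤ N.primeFactorsList.prod :=
      List.pow_card_le_prod _ _ (fun p hp => (Nat.prime_of_mem_primeFactorsList hp).two_le)
    rw [Nat.prod_primeFactorsList h.ne'] at h1
    exact (Nat.lt_two_pow_self.le).trans h1

lemma small_caseB (n0 B : ℕ) (hB : n0 * n0 ≤ B) : ∀ n : ℕ, 3 ≤ n → n < n0 → ∃ π : ℕ → ℕ,
    (∀ i < n, 1 ≤ π i ∧ π i ≤ n) ∧ (∀ i < n, ∀ j < n, π i = π j → i = j) ∧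
    ∀ i < n, QX B n (π i * π ((i + 1) % n) - 1) := by
  intro n hn hn0
  have hsq : n0 ≤ n0 * n0 := Nat.le_mul_self n0
  refine ⟨fun i => i + 1, fun i hi => ⟨Nat.succ_le_succ (Nat.zero_le i), hi⟩,
    fun i _ j _ h => by simpa using h, fun i hi => ⟨?_, fun h => by omega⟩⟩
  have h1 : (i + 1) % n < n := Nat.mod_lt _ (by omega)
  refine ⟨(cardFactors_le_self _).trans (le_trans ?_ hB), fun p hp _ => ?_⟩
  · calc (i + 1) * ((i + 1) % n + 1) - 1 ≤ (i + 1) * ((i + 1) % n + 1) := Nat.sub_le _ _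
      _ ≤ n0 * n0 := Nat.mul_le_mul (by omega) (by omega)
  · calc n < n0 := hn0
      _ ≤ B := hsq.trans hB
      _ < 2 ^ B := Nat.lt_two_pow_self
      _ ≤ p ^ B := Nat.pow_le_pow_left hp.two_le _

/-- the level belonging to `m` -/
lemma level (C m : ℕ) (hC : 1 ≤ C) (hm : C * (2 ^ 2 ^ (4 + 0)) ^ 88 ≤ m) :
    ∃ k, C * (2 ^ 2 ^ (4 + k)) ^ 88 ≤ m ∧ m < C * (2 ^ 2 ^ (4 + k)) ^ 176 := by
  have hex : ∃ k, m < C * (2 ^ 2 ^ (4 + k)) ^ 88 := by
    refine ⟨m, ?_⟩
    have h1 : m < 2 ^ m := Nat.lt_two_pow_self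
    have h2 : 2 ^ m ≤ 2 ^ 2 ^ (4 + m) := by
      apply Nat.pow_le_pow_right (by norm_num)
      have : 4 + m < 2 ^ (4 + m) := Nat.lt_two_pow_self
      omega
    have h3 : 2 ^ 2 ^ (4 + m) ≤ (2 ^ 2 ^ (4 + m)) ^ 88 := Nat.le_self_pow (by norm_num) _
    have h4 : (2 ^ 2 ^ (4 + m)) ^ 88 ≤ C * (2 ^ 2 ^ (4 + m)) ^ 88 := Nat.le_mul_of_pos_left _ hC
    omega
  classical
  have hs := Nat.find_spec hex
  have hne : Nat.find hex ≠ 0 := by
    intro h0
    rw [h0] at hs
    omega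
  obtain ⟨k, hk⟩ := Nat.exists_eq_succ_of_ne_zero hne
  refine ⟨k, ?_, ?_⟩
  · have := Nat.find_min hex (m := k) (by omega)
    omega
  · rw [hk] at hs
    have e : (2 ^ 2 ^ (4 + k.succ)) ^ 88 = (2 ^ 2 ^ (4 + k)) ^ 176 := by
      rw [← pow_mul, ← pow_mul]
      congr 1
      rw [show 4 + k.succ = 4 + k + 1 by omega, pow_succ]
      ring
    rwa [e] at hs

/-- few prime factors when all of them are large -/
lemma omega_le {N X r : ℕ} (hX : 2 ≤ X) (hN0 : 0 < N) (hN : N < X ^ (r + 1))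
    (h : ∀ p : ℕ, p.Prime → p ∣ N → X < p) : ArithmeticFunction.cardFactors N ≤ r := by
  rw [ArithmeticFunction.cardFactors_apply]
  have h1 : X ^ N.primeFactorsList.length ≤ N.primeFactorsList.prod :=
    List.pow_card_le_prod _ _ (fun p hp =>
      (h p (Nat.prime_of_mem_primeFactorsList hp) (Nat.dvd_of_mem_primeFactorsList hp)).le)
  rw [Nat.prod_primeFactorsList hN0.ne'] at h1
  have h2 : X ^ N.primeFactorsList.length < X ^ (r + 1) := lt_of_le_of_lt h1 hN
  have h3 := (Nat.pow_lt_pow_iff_right (by omega)).1 h2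
  omega

/-- a product with the `Fr` property has few prime factors, all of them large -/
lemma fin_QX (C : ℕ) (hC : 1 ≤ C) : ∃ n1 : ℕ,
    ∀ k n x y M : ℕ, n1 ≤ n → n ≤ C * M → M < C * (2 ^ 2 ^ (4 + k)) ^ 176 →
      1 ≤ x → x ≤ n → 2 ≤ y → y ≤ n → Fr k x y →
      ArithmeticFunction.cardFactors (x * y - 1) ≤ 352 ∧
        ∀ p : ℕ, p.Prime → p ∣ x * y - 1 → n < p ^ 177 := by
  refine ⟨C ^ 2 * (C ^ 4) ^ 176 + 1, ?_⟩
  intro k n x y M hn1 hn hM hx1 hx hy1 hy hg
  have hX2 : 2 ≤ 2 ^ 2 ^ (4 + k) := by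
    calc 2 = 2 ^ 1 := rfl
      _ ≤ 2 ^ 2 ^ (4 + k) := Nat.pow_le_pow_right (by norm_num) Nat.one_le_two_pow
  have hPK : ∀ p : ℕ, p.Prime → p ≤ 2 ^ 2 ^ (4 + k) → (x * y) % p ≠ 1 := fun p hp hle =>
    hg p (mem_PK.2 ⟨hp, hle⟩)
  generalize hXX : 2 ^ 2 ^ (4 + k) = X at hM hX2 hPK
  have hnX : n ≤ C ^ 2 * X ^ 176 := by
    calc n ≤ C * M := hn
      _ ≤ C * (C * X ^ 176) := Nat.mul_le_mul_left _ hM.le
      _ = C ^ 2 * X ^ 176 := by ring
  have hXC : C ^ 4 < X := by
    by_contra hle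
    push Not at hle
    have h1 : C ^ 2 * X ^ 176 ≤ C ^ 2 * (C ^ 4) ^ 176 :=
      Nat.mul_le_mul_left _ (Nat.pow_le_pow_left hle _)
    omega
  have hXpos : 0 < X ^ 352 := Nat.pow_pos (by omega)
  have hnn : n * n < X ^ 353 := by
    calc n * n ≤ (C ^ 2 * X ^ 176) * (C ^ 2 * X ^ 176) := Nat.mul_le_mul hnX hnX
      _ = C ^ 4 * X ^ 352 := by ring
      _ < X * X ^ 352 := Nat.mul_lt_mul_of_pos_right hXC hXpos
      _ = X ^ 353 := by ring
  have hxy : 2 ≤ x * y := by nlinarith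
  have hlt : x * y - 1 < X ^ (352 + 1) := by
    have : x * y ≤ n * n := Nat.mul_le_mul hx hy
    have e : X ^ (352 + 1) = X ^ 353 := rfl
    rw [e]
    omega
  have hbig : ∀ p : ℕ, p.Prime → p ∣ x * y - 1 → X < p := by
    intro p hp hd
    by_contra hle
    push Not at hle
    apply hPK p hp hle
    obtain ⟨c, hc⟩ := hd
    have e : x * y = 1 + p * c := by omega
    rw [e, Nat.add_mul_mod_self_left, Nat.mod_eq_of_lt hp.one_lt]
  refine ⟨omega_le hX2 (by omega) hlt hbig, ?_⟩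
  intro p hp hd
  have hpX := hbig p hp hd
  have hC2 : C ^ 2 ≤ C ^ 4 := Nat.pow_le_pow_right hC (by norm_num)
  have hXpos' : 0 < X ^ 176 := Nat.pow_pos (by omega)
  calc n ≤ C ^ 2 * X ^ 176 := hnX
    _ < X * X ^ 176 := Nat.mul_lt_mul_of_pos_right (by omega) hXpos'
    _ = X ^ 177 := by ring
    _ ≤ p ^ 177 := Nat.pow_le_pow_left hpX.le _

/-- the strong form from the pieces -/
theorem p_strong (hPex : T_P) (hcls : T_cls) (htwo : T_two) (hrl : T_rl) (hgood : T_good)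
    (hdega : T_dega) (hdeg : T_deg) (hin : T_in) (hWd : T_W) (hgl : T_glob) (haa : T_aa)
    (he : S_exp) (hE : T_cirE) (hO : T_cirO) : S_strong := by
  obtain ⟨P, hP⟩ := hPex
  have hP3 : 3 ≤ P := hP.2.2.1
  obtain ⟨C0, hmat⟩ := matB hcls htwo hrl hgood hdega hdeg hin hWd hgl haa he P hP
  set C : ℕ := C0 + 10 * P with hC
  have hXC : ∀ k m : ℕ, C * (2 ^ 2 ^ (4 + k)) ^ 88 ≤ m → C0 * (2 ^ 2 ^ (4 + k)) ^ 88 ≤ m :=
    fun k m h => (Nat.mul_le_mul_right _ (by omega)).trans h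
  obtain ⟨n1, hQ⟩ := fin_QX C (by omega)
  obtain ⟨m0, hm0'⟩ : ∃ m0 : ℕ, m0 = C * (2 ^ 2 ^ (4 + 0)) ^ 88 := ⟨_, rfl⟩
  have hm0ge : C ≤ m0 := by
    have : 1 ≤ (2 ^ 2 ^ (4 + 0)) ^ 88 := Nat.one_le_pow _ _ Nat.one_le_two_pow
    rw [hm0']
    exact Nat.le_mul_of_pos_right C this
  obtain ⟨n0, hn0⟩ : ∃ n0 : ℕ, n0 = 2 * ((m0 + 2) * P) + n1 + 4 := ⟨_, rfl⟩
  obtain ⟨B, hB⟩ : ∃ B : ℕ, B = n0 * n0 + 352 := ⟨_, rfl⟩
  refine ⟨B, fun n hn => ?_⟩
  rcases lt_or_ge n n0 with hsm | hbg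
  · obtain ⟨π, p1, p2, p3⟩ := small_caseB n0 B (by omega) n hn hsm
    exact ⟨π, p1, p2, fun i hi => Or.inl (p3 i hi)⟩
  -- the common part
  have hcommon : ∀ m H : ℕ, (m0 + 2) * P ≤ H → H ≤ m → m ≤ H + 1 → n ≤ 2 * m + 1 →
      ∀ nx : ℕ → ℕ, (∀ x, x + 1 < H → nx x = x + 1) →
      ∃ (k : ℕ) (f : ℕ → ℕ), 1 ≤ H / P ∧ H / P * P ≤ H ∧
        (∀ x < m, 1 ≤ f x ∧ f x ≤ m ∧ GG P k (H / P) H nx x (f x)) ∧
        (∀ x < m, ∀ y < m, f x = f y → x = y) ∧
        ∀ x y : ℕ, 1 ≤ x → x ≤ n → 2 ≤ y → y ≤ n → Fr k x y → QX B n (x * y - 1) := by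
    intro m H h1 h2 h3 h4 nx hnx
    set q := H / P with hq
    have hq1 : m0 + 2 ≤ q := by
      rw [hq]
      exact (Nat.le_div_iff_mul_le (by omega)).2 h1
    have hqH : q * P ≤ H := Nat.div_mul_le_self H P
    have hqH2 : H < (q + 1) * P := by
      have := Nat.lt_mul_div_succ H (show 0 < P by omega)
      rw [← hq] at this
      calc H < P * (q + 1) := this
        _ = (q + 1) * P := by ring
    obtain ⟨k, k1, k2⟩ := level C (q - 1) (by omega) (by rw [← hm0']; omega)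
    obtain ⟨f, f1, f2⟩ := hmat k q m H nx hqH h2 (by omega) (hXC k _ k1) hnx
    refine ⟨k, f, by omega, hqH, f1, f2, ?_⟩
    intro x y hx1 hx hy1 hy hxy
    have hnq : n ≤ C * (q - 1) := ?_
    · obtain ⟨u1, u2⟩ := hQ k n x y (q - 1) (by omega) hnq k2 hx1 hx hy1 hy hxy
      refine ⟨⟨u1.trans (by omega), fun p hp hd => (u2 p hp hd).trans_le
        (Nat.pow_le_pow_right hp.pos (by omega))⟩, fun _ => ⟨u1, u2⟩⟩
    have e1 : (q + 1) * P ≤ (3 * P) * (q - 1) := by
      obtain ⟨r, hr⟩ : ∃ r, q = r + 2 := ⟨q - 2, by omega⟩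
      rw [hr, show r + 2 - 1 = r + 1 by omega]
      nlinarith
    have e2 : n ≤ 2 * ((q + 1) * P) + 1 := by omega
    have e3 : 1 ≤ (3 * P) * (q - 1) := by
      have : 1 * 1 ≤ (3 * P) * (q - 1) := Nat.mul_le_mul (by omega) (by omega)
      omega
    calc n ≤ 3 * ((3 * P) * (q - 1)) := by omega
      _ = (9 * P) * (q - 1) := by ring
      _ ≤ C * (q - 1) := Nat.mul_le_mul_right _ (by omega)
  have haapos : ∀ P' q' H' j, 1 ≤ aa P' q' H' j := by
    intro P' q' H' j
    unfold aa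
    split_ifs <;> omega
  rcases Nat.even_or_odd' n with ⟨m, hm | hm⟩
  · -- even case
    obtain ⟨k, f, g1, g2, g3, g4, g5⟩ := hcommon m (m - 1) (by omega) (by omega) (by omega)
      (by omega) (fun j => (j + 1) % m) (fun x hx => Nat.mod_eq_of_lt (by omega))
    have hP0 : 0 < P := by omega
    have haale : ∀ j, j < m → aa P ((m - 1) / P) (m - 1) j ≤ n := by
      intro j hj
      unfold aa ga
      set q := (m - 1) / P with hq
      split_ifs with c1 c2
      · have e1 : j % q < q := Nat.mod_lt _ (by omega)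
        have e2 : j / q < P := by
          rw [Nat.div_lt_iff_lt_mul (by omega)]
          calc j < q * P := c2
            _ = P * q := by ring
        have e3 : (j % q) * P + P ≤ q * P := by
          have : (j % q + 1) * P ≤ q * P := Nat.mul_le_mul_right _ e1
          calc (j % q) * P + P = (j % q + 1) * P := by ring
            _ ≤ q * P := this
        omega
      · omega
      · omega
    obtain ⟨π, q1, q2, q3⟩ := hE m P ((m - 1) / P)
      (fun x y => QX B n (x * y - 1) ∨ (Odd n ∧ x = 1 ∧ y = 3)) f (by omega) hP0 g1 g2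
      (by
        intro j hj
        obtain ⟨f1, f2, f3, f4⟩ := g3 j hj
        refine ⟨f1, f2, Or.inl ?_, Or.inl ?_⟩
        · exact g5 _ _ (haapos _ _ _ _) (haale j hj) (by omega) (by omega) f3
        · rw [mul_comm]
          exact g5 _ _ (haapos _ _ _ _) (haale _ (Nat.mod_lt _ (by omega))) (by omega)
            (by omega) f4) g4
    rw [← hm] at q1 q2 q3
    refine ⟨π, q1, q2, fun i hi => ?_⟩
    exact q3 i hi
  · -- odd case
    obtain ⟨k, f, g1, g2, g3, g4, g5⟩ := hcommon m m (by omega) (by omega) (by omega)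
      (by omega) (fun j => j + 1) (fun x _ => rfl)
    have hP0 : 0 < P := by omega
    have haale : ∀ j, j ≤ m → aa P (m / P) m j ≤ n := by
      intro j hj
      unfold aa ga
      set q := m / P with hq
      split_ifs with c1 c2
      · have e1 : j % q < q := Nat.mod_lt _ (by omega)
        have e2 : j / q < P := by
          rw [Nat.div_lt_iff_lt_mul (by omega)]
          calc j < q * P := c2
            _ = P * q := by ring
        have e3 : (j % q) * P + P ≤ q * P := by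
          have : (j % q + 1) * P ≤ q * P := Nat.mul_le_mul_right _ e1
          calc (j % q) * P + P = (j % q + 1) * P := by ring
            _ ≤ q * P := this
        omega
      · omega
      · omega
    have hodd : Odd n := ⟨m, hm⟩
    obtain ⟨π, q1, q2, q3⟩ := hO m P (m / P)
      (fun x y => QX B n (x * y - 1) ∨ (Odd n ∧ x = 1 ∧ y = 3)) f (by omega) hP0 g1 g2
      (Or.inr ⟨hodd, rfl, rfl⟩)
      (by
        intro j hj
        obtain ⟨f1, f2, f3, f4⟩ := g3 j hj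
        refine ⟨f1, f2, Or.inl ?_, Or.inl ?_⟩
        · exact g5 _ _ (haapos _ _ _ _) (haale j hj.le) (by omega) (by omega) f3
        · rw [mul_comm]
          exact g5 _ _ (haapos _ _ _ _) (haale _ hj) (by omega)
            (by omega) f4) g4
    rw [← hm] at q1 q2 q3
    refine ⟨π, q1, q2, fun i hi => ?_⟩
    exact q3 i hi

end Pool.Agent.APC
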