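import Pool.Agent.Lib.MP_e0f8f3_nt.DefsC
import Pool.Agent.Lib.MP_e0f8f3_nt.FinB

set_option autoImplicit false

/-!
Assembly of the version with many primes.
-/

namespace Pool.Agent.APC

open Finset
open Pool.Agent.BVall

/-- the property of the numbers `x y - 1` -/
def QB (B n N : ℕ) : Prop :=
  ArithmeticFunction.cardFactors N ≤ B ∧ ∀ p : ℕ, p.Prime → p ∣ N → n < p ^ B

/-- the version with many primes -/
def S_many : Prop := ∀ ε : ℝ, 0 < ε → ε < 1 → ∃ B : ℕ, ∀ n : ℕ, 3 ≤ n → ∃ π : ℕ → ℕ,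
  (∀ i < n, 1 ≤ π i ∧ π i ≤ n) ∧ (∀ i < n, ∀ j < n, π i = π j → i = j) ∧
  (∀ i < n, QB B n (π i * π ((i + 1) % n) - 1) ∨ (Odd n ∧ π i = 1 ∧ π ((i + 1) % n) = 3)) ∧
  (B ≤ n → (n : ℝ) ^ (1 - ε) ≤
    (((range n).filter (fun i => (π i * π ((i + 1) % n) - 1).Prime)).card : ℝ))

/-- robust matchings -/
lemma matC (hcls : T_cls) (htwo : T_two) (hrl : T_rl) (hgood : T_good) (hdega : V_dega)
    (hdeg : V_deg) (hin : V_in) (hWd : T_W) (hgl : V_glob) (haa : T_aa) (he : S_exp) :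
    ∀ P : ℕ, IsP P → ∃ C : ℕ, ∀ (k q m H r : ℕ) (nx : ℕ → ℕ) (Sx Bx : Finset ℕ), q * P ≤ H →
      H ≤ m → m ≤ (q + 1) * P → C * (2 ^ 2 ^ (4 + k)) ^ 88 ≤ q - 1 →
      C * 2 ^ 2 ^ (4 + k) * (10 * (2 * P + r + 10)) ≤ q - 1 →
      (∀ x, x + 1 < H → nx x = x + 1) →
      Sx ⊆ range m → Bx ⊆ Icc 1 m → Sx.card = Bx.card → Bx.card ≤ r →
      ∃ f : ℕ → ℕ, (∀ x ∈ range m \ Sx, f x ∈ Icc 1 m \ Bx ∧ GG P k q H nx x (f x)) ∧
        ∀ x ∈ range m \ Sx, ∀ y ∈ range m \ Sx, f x = f y → x = y := by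
  intro P hP
  have hP3 : 3 ≤ P := hP.2.2.1
  obtain ⟨φ, p1, p2, p3, p4⟩ := hcls P hP
  obtain ⟨M0, hin⟩ := hin
  obtain ⟨C1, hdeg⟩ := hdeg P hP
  obtain ⟨C2, hdega⟩ := hdega
  obtain ⟨C3, he⟩ := he
  refine ⟨C1 + C2 + C3 + M0 + 10, fun k q m H r nx Sx Bx hqH hHm hmq hC hC' hnx hSx hBx hSB hBr =>
    ?_⟩
  set X : ℕ := 2 ^ 2 ^ (4 + k) with hX
  have hX1 : 1 ≤ X := Nat.one_le_two_pow
  have hmono : ∀ C' : ℕ, C' ≤ C1 + C2 + C3 + M0 + 10 → C' * X ^ 88 ≤ q - 1 := fun C' h =>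
    (Nat.mul_le_mul_right _ h).trans hC
  have hbase : C1 + C2 + C3 + M0 + 10 ≤ q - 1 := by
    have h4 : 1 ≤ X ^ 88 := Nat.one_le_pow _ _ hX1
    calc C1 + C2 + C3 + M0 + 10 = (C1 + C2 + C3 + M0 + 10) * 1 := (mul_one _).symm
      _ ≤ (C1 + C2 + C3 + M0 + 10) * X ^ 88 := Nat.mul_le_mul_left _ h4
      _ ≤ q - 1 := hC
  obtain ⟨F, hF⟩ : ∃ F : ℕ, F = 2 * P + r := ⟨_, rfl⟩
  obtain ⟨D, hD⟩ : ∃ D : ℕ, D = 10 * (F + 10) := ⟨_, rfl⟩
  rw [← hF, ← hD] at hC'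
  -- from the lower bounds to D
  have hdiv : ∀ C' N c : ℕ, C' ≤ C1 + C2 + C3 + M0 + 10 → q - 1 ≤ N → N ≤ C' * X * c → D ≤ c := by
    intro C' N c h1 h2 h3
    have h4 : (C1 + C2 + C3 + M0 + 10) * X * D ≤ (C1 + C2 + C3 + M0 + 10) * X * c :=
      calc (C1 + C2 + C3 + M0 + 10) * X * D ≤ q - 1 := hC'
        _ ≤ N := h2
        _ ≤ C' * X * c := h3
        _ ≤ (C1 + C2 + C3 + M0 + 10) * X * c :=
          Nat.mul_le_mul_right _ (Nat.mul_le_mul_right _ h1)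
    exact Nat.le_of_mul_le_mul_left h4 (Nat.mul_pos (by omega) (by omega))
  have hq1 : 1 ≤ q := by omega
  have hqm : q * P ≤ m := hqH.trans hHm
  have hWex : ∀ c, ∃ w0 N : ℕ, c < P → (q ≤ N ∧ N ≤ q + 1 ∧
      ∀ w, (w0 ≤ w ∧ w < w0 + N) ↔ (1 ≤ c + P * w ∧ c + P * w ≤ m)) := by
    intro c
    by_cases hc : c < P
    · obtain ⟨w0, N, h⟩ := hWd P q m c (by omega) hc hqm hmq hq1
      exact ⟨w0, N, fun _ => h⟩
    · exact ⟨0, 0, fun h => absurd h hc⟩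
  choose w0 N hWN using hWex
  have hN1 : ∀ c < P, q ≤ N c := fun c hc => (hWN c hc).1
  have hN2 : ∀ c < P, N c ≤ q + 1 := fun c hc => (hWN c hc).2.1
  have hsplit : (q + 1) * P = (q - 1) * P + 2 * P := by
    obtain ⟨r, rfl⟩ : ∃ r, q = r + 1 := ⟨q - 1, by omega⟩
    rw [Nat.add_sub_cancel]
    ring
  -- degrees on the slot side
  have hdegS : ∀ i c t, i < P → c < P → Cm P i c → t < q - 1 →
      D ≤ {w | w ∈ Ico (w0 c) (w0 c + N c) ∧
        GG P k q H nx (i * q + t) (c + P * w)}.ncard := by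
    intro i c t hi hc hcm ht
    obtain ⟨-, r2, r3, -⟩ := hrl P hP i c
    have h := hdega k (N c) (w0 c) (fun p w => RlB P i c p t w)
      ((hmono C2 (by omega)).trans (by have := hN1 c hc; omega)) (fun p w => r2 p t w)
      (fun p hp => r3 p t hp)
    have e : {w | w ∈ Ico (w0 c) (w0 c + N c) ∧ GG P k q H nx (i * q + t) (c + P * w)} =
        {w | w ∈ Ico (w0 c) (w0 c + N c) ∧ ∀ p ∈ PK 4 k, ¬ RlB P i c p t w} := by
      ext w
      simp only [Set.mem_ofPred_eq]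
      rw [GG_iff hgood haa hP hqH hnx hi ht hcm]
    rw [e]
    exact hdiv C2 (N c) _ (by omega) (by have := hN1 c hc; omega) h
  obtain ⟨f, hf1, hf2⟩ := hgl P q m F r φ w0 N (GG P k q H nx) Sx Bx (by omega) hq1 hqm
    (by omega) hSx hBx hSB hBr p1 p2 (fun c hc w => (hWN c hc).2.2 w)
    (fun c hc => by have := hN1 c hc; omega)
    (by
      intro x hx
      obtain ⟨c, hc, hcc⟩ := htwo P hP (aa P q H x) (aa P q H (nx x))
      have h := hdeg k (N c) (w0 c) (aa P q H x) (aa P q H (nx x)) c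
        ((hmono C1 (by omega)).trans (by have := hN1 c hc; omega)) hcc
      have h' := hdiv C1 (N c) _ (by omega) (by have := hN1 c hc; omega) h
      refine le_trans (by omega) (h'.trans ?_)
      apply Set.ncard_le_ncard_of_injOn (fun w => c + P * w)
      · intro w hw
        simp only [Set.mem_ofPred_eq, mem_Ico, mem_Icc] at hw ⊢
        have h2 := ((hWN c hc).2.2 w).1 hw.1
        exact ⟨h2, hw.2⟩
      · intro a _ b _ hab
        simp only at hab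
        have h5 : P * a = P * b := by omega
        exact Nat.eq_of_mul_eq_mul_left (by omega) h5)
    (by
      intro i hi S hS hSne
      have hci : φ i < P := p1 i hi
      have hcm : Cm P i (φ i) := p3 i hi
      obtain ⟨r1, r2, r3, r4⟩ := hrl P hP i (φ i)
      have hN1i := hN1 _ hci
      have hN2i := hN2 _ hci
      have hB0 : (Ico (w0 (φ i)) (w0 (φ i) + N (φ i))).card = N (φ i) := by simp
      have hJ0 : (range (q - 1)).card = q - 1 := by simp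
      have hGG : ∀ t < q - 1, ∀ w, GG P k q H nx (i * q + t) (φ i + P * w) ↔
          ∀ p ∈ PK 4 k, ¬ RlB P i (φ i) p t w := fun t ht w =>
        GG_iff hgood haa hP hqH hnx hi ht hcm
      have key := hin F D (by omega) (fun t w => GG P k q H nx (i * q + t) (φ i + P * w))
        (range (q - 1))
        (Ico (w0 (φ i)) (w0 (φ i) + N (φ i))) (by rw [hB0]; omega) (by rw [hB0, hJ0]; omega)
        (by rw [hB0, hJ0]; omega)
        (by
          intro t ht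
          exact hdegS i (φ i) t hi hci hcm (mem_range.1 ht))
        (by
          intro w hw
          have h := hdega k (q - 1) 0 (fun p t => RlB P i (φ i) p t w)
            (hmono C2 (by omega)) (fun p t => r1 p t w) (fun p hp => r4 p w hp)
          have h' := hdiv C2 (q - 1) _ (by omega) le_rfl h
          refine h'.trans (le_of_eq ?_)
          congr 1
          ext t
          simp only [Set.mem_ofPred_eq, mem_Ico, mem_range, zero_add, Nat.zero_le, true_and]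
          constructor
          · rintro ⟨h1, h2⟩
            exact ⟨h1, (hGG t h1 w).2 h2⟩
          · rintro ⟨h1, h2⟩
            exact ⟨h1, (hGG t h1 w).1 h2⟩)
        (by
          intro T hT
          rw [hB0]
          have h := he k (N (φ i)) (q - 1) 0 (w0 (φ i)) (RlB P i (φ i))
            ((hmono C3 (by omega)).trans (by omega)) (by omega) r1 r2 r3 r4 T
            (by rw [zero_add, ← range_eq_Ico]; exact hT)
          have e : {y | y ∈ Ico (w0 (φ i)) (w0 (φ i) + N (φ i)) ∧ ∃ x ∈ T,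
              GG P k q H nx (i * q + x) (φ i + P * y)} =
              {y | y ∈ Ico (w0 (φ i)) (w0 (φ i) + N (φ i)) ∧ ∃ x ∈ T,
                ∀ p ∈ PK 4 k, ¬ RlB P i (φ i) p x y} := by
            ext y
            simp only [Set.mem_ofPred_eq]
            refine and_congr_right fun _ => exists_congr fun x => and_congr_right fun hx => ?_
            exact hGG x (mem_range.1 (hT hx)) y
          rw [e]
          exact h)
        (by
          intro T hT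
          rw [hJ0]
          have h := he k (q - 1) (N (φ i)) (w0 (φ i)) 0 (fun p w t => RlB P i (φ i) p t w)
            (hmono C3 (by omega)) (by omega) (fun p w t => r2 p t w) (fun p w t => r1 p t w)
            (fun p w hp => r4 p w hp) (fun p t hp => r3 p t hp) T hT
          have e : {x | x ∈ range (q - 1) ∧ ∃ y ∈ T,
              GG P k q H nx (i * q + x) (φ i + P * y)} =
              {x | x ∈ Ico 0 (0 + (q - 1)) ∧ ∃ y ∈ T,
                ∀ p ∈ PK 4 k, ¬ RlB P i (φ i) p x y} := by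
            ext x
            simp only [Set.mem_ofPred_eq, mem_Ico, mem_range, zero_add, Nat.zero_le, true_and]
            refine and_congr_right fun hx => exists_congr fun y => and_congr_right fun _ => ?_
            exact hGG x hx y
          rw [e]
          exact h) S hS hSne
      exact key)
    (by
      intro I hI hIne hIr
      obtain ⟨i, hi, j, hj, hcm⟩ := p4 I hI hIne hIr
      refine ⟨i, hi, j, hj, fun t ht => ?_⟩
      have hi' := mem_range.1 (hI hi)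
      have hj' := mem_range.1 (mem_sdiff.1 hj).1
      exact le_trans (by omega) (hdegS i (φ j) t hi' (p1 j hj') hcm ht))
  exact ⟨f, hf1, hf2⟩

/-- growth -/
lemma growthC (C P : ℕ) (hC : 1 ≤ C) (ε : ℝ) (h0 : 0 < ε) (h1 : ε < 1) :
    ∃ K n0 : ℕ, ∀ n q X : ℕ, n0 ≤ n → n ≤ C * (q - 1) → X ^ K ≤ n →
      C * X * (10 * (2 * P + ⌊(n : ℝ) ^ (1 - ε / 4)⌋₊ + 10)) ≤ q - 1 := by
  obtain ⟨K, hK⟩ := exists_nat_gt (8 / ε)
  have hev : ∀ᶠ x : ℝ in Filter.atTop, ((10 * C ^ 2 * (2 * P + 11) : ℕ) : ℝ) ≤ x ^ (ε / 8) :=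
    (tendsto_rpow_atTop (by positivity)).eventually_ge_atTop _
  obtain ⟨n0, hn0⟩ := Filter.eventually_atTop.1
    (tendsto_natCast_atTop_atTop.eventually hev : ∀ᶠ n : ℕ in Filter.atTop,
      ((10 * C ^ 2 * (2 * P + 11) : ℕ) : ℝ) ≤ (n : ℝ) ^ (ε / 8))
  refine ⟨K, n0 + 1, fun n q X hn hq hX => ?_⟩
  have hg := hn0 n (by omega)
  have hn1 : (1 : ℝ) ≤ n := by exact_mod_cast (show 1 ≤ n by omega)
  have hnpos : (0 : ℝ) < n := by linarith
  have hKpos : (0 : ℝ) < K := lt_trans (by positivity) hK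
  have hXn : (X : ℝ) ≤ (n : ℝ) ^ (ε / 8) := by
    have e1 : ((X : ℝ)) ^ K ≤ n := by exact_mod_cast hX
    have e2 : (X : ℝ) = ((X : ℝ) ^ K) ^ (1 / (K : ℝ)) := by
      rw [← Real.rpow_natCast, ← Real.rpow_mul (Nat.cast_nonneg _), mul_one_div_cancel hKpos.ne',
        Real.rpow_one]
    rw [e2]
    calc ((X : ℝ) ^ K) ^ (1 / (K : ℝ)) ≤ (n : ℝ) ^ (1 / (K : ℝ)) :=
          Real.rpow_le_rpow (by positivity) e1 (by positivity)
      _ ≤ (n : ℝ) ^ (ε / 8) := by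
          apply Real.rpow_le_rpow_of_exponent_le hn1
          rw [div_le_div_iff₀ hKpos (by norm_num)]
          rw [div_lt_iff₀ h0] at hK
          linarith
  have hfl : (⌊(n : ℝ) ^ (1 - ε / 4)⌋₊ : ℝ) ≤ (n : ℝ) ^ (1 - ε / 4) :=
    Nat.floor_le (Real.rpow_nonneg hnpos.le _)
  have hone : (1 : ℝ) ≤ (n : ℝ) ^ (1 - ε / 4) := Real.one_le_rpow hn1 (by linarith)
  have hCpos : (0 : ℝ) < C := by exact_mod_cast hC
  have hmain : (C : ℝ) * ((C : ℝ) * X * (10 * (2 * P + (⌊(n : ℝ) ^ (1 - ε / 4)⌋₊ : ℝ) + 10))) ≤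
      n := by
    have s1 : (2 * (P : ℝ) + (⌊(n : ℝ) ^ (1 - ε / 4)⌋₊ : ℝ) + 10) ≤
        (2 * P + 11) * (n : ℝ) ^ (1 - ε / 4) := by
      have : (0 : ℝ) ≤ P := Nat.cast_nonneg _
      nlinarith
    have s2 : (n : ℝ) ^ (ε / 8) * (n : ℝ) ^ (ε / 8) * (n : ℝ) ^ (1 - ε / 4) = n := by
      rw [← Real.rpow_add hnpos, ← Real.rpow_add hnpos]
      have : ε / 8 + ε / 8 + (1 - ε / 4) = 1 := by ring
      rw [this, Real.rpow_one]
    have s3 : (10 * (C : ℝ) ^ 2 * (2 * P + 11)) ≤ (n : ℝ) ^ (ε / 8) := by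
      have := hg
      push_cast at this
      exact this
    have hY : (0 : ℝ) ≤ (n : ℝ) ^ (1 - ε / 4) := by linarith
    calc (C : ℝ) * ((C : ℝ) * X * (10 * (2 * P + (⌊(n : ℝ) ^ (1 - ε / 4)⌋₊ : ℝ) + 10)))
        = (10 * (C : ℝ) ^ 2 * X) * (2 * P + (⌊(n : ℝ) ^ (1 - ε / 4)⌋₊ : ℝ) + 10) := by ring
      _ ≤ (10 * (C : ℝ) ^ 2 * X) * ((2 * P + 11) * (n : ℝ) ^ (1 - ε / 4)) :=
          mul_le_mul_of_nonneg_left s1 (by positivity)
      _ = (10 * (C : ℝ) ^ 2 * (2 * P + 11)) * X * (n : ℝ) ^ (1 - ε / 4) := by ring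
      _ ≤ (n : ℝ) ^ (ε / 8) * (n : ℝ) ^ (ε / 8) * (n : ℝ) ^ (1 - ε / 4) := by
          apply mul_le_mul_of_nonneg_right _ hY
          exact mul_le_mul s3 hXn (Nat.cast_nonneg _) (Real.rpow_nonneg hnpos.le _)
      _ = n := s2
  have hnat : C * (C * X * (10 * (2 * P + ⌊(n : ℝ) ^ (1 - ε / 4)⌋₊ + 10))) ≤ n := by
    exact_mod_cast hmain
  exact Nat.le_of_mul_le_mul_left (hnat.trans hq) hC

/-- matchings with many prescribed primes -/
lemma matD (haa : T_aa) (hprm : U_prm)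
    (hC0 : ∀ P : ℕ, IsP P → ∃ C : ℕ, ∀ (k q m H r : ℕ) (nx : ℕ → ℕ) (Sx Bx : Finset ℕ),
      q * P ≤ H →
      H ≤ m → m ≤ (q + 1) * P → C * (2 ^ 2 ^ (4 + k)) ^ 88 ≤ q - 1 →
      C * 2 ^ 2 ^ (4 + k) * (10 * (2 * P + r + 10)) ≤ q - 1 →
      (∀ x, x + 1 < H → nx x = x + 1) →
      Sx ⊆ range m → Bx ⊆ Icc 1 m → Sx.card = Bx.card → Bx.card ≤ r →
      ∃ f : ℕ → ℕ, (∀ x ∈ range m \ Sx, f x ∈ Icc 1 m \ Bx ∧ GG P k q H nx x (f x)) ∧
        ∀ x ∈ range m \ Sx, ∀ y ∈ range m \ Sx, f x = f y → x = y) :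
    ∀ P : ℕ, IsP P → ∀ ε : ℝ, 0 < ε → ε < 1 → ∃ C K n0 : ℕ, 10 * P ≤ C ∧ 1 ≤ K ∧
      ∀ (n k q m H : ℕ) (nx : ℕ → ℕ), n0 ≤ n → q * P ≤ H → H ≤ m → m ≤ (q + 1) * P →
      2 * m ≤ n → n ≤ 2 * m + 1 → n ≤ C * (q - 1) →
      C * (2 ^ 2 ^ (4 + k)) ^ K ≤ q - 1 →
      (∀ x, x + 1 < H → nx x = x + 1) →
      ∃ (f : ℕ → ℕ) (Z : Finset ℕ), (∀ x < m, 1 ≤ f x ∧ f x ≤ m ∧ GG P k q H nx x (f x)) ∧
        (∀ x < m, ∀ y < m, f x = f y → x = y) ∧ Z ⊆ range m ∧ (n : ℝ) ^ (1 - ε) ≤ Z.card ∧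
        ∀ x ∈ Z, (aa P q H x * (2 * f x) - 1).Prime := by
  intro P hP ε h0 h1
  have hP3 : 3 ≤ P := hP.2.2.1
  obtain ⟨C0, hC0⟩ := hC0 P hP
  obtain ⟨K1, n1, hpr⟩ := hprm P hP ε h0 h1
  obtain ⟨C, hC⟩ : ∃ C : ℕ, C = C0 + 10 * P := ⟨_, rfl⟩
  obtain ⟨K2, n2, hgr⟩ := growthC C P (by omega) ε h0 h1
  obtain ⟨K, hK⟩ : ∃ K : ℕ, K = K1 + K2 + 88 := ⟨_, rfl⟩
  refine ⟨C, K, n1 + n2 + 1, by omega, by omega, ?_⟩
  intro n k q m H nx hn hqH hHm hmq hm1 hm2 hnq hXq hnx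
  obtain ⟨X, hX⟩ : ∃ X : ℕ, X = 2 ^ 2 ^ (4 + k) := ⟨_, rfl⟩
  have hX1 : 1 ≤ X := by rw [hX]; exact Nat.one_le_two_pow
  rw [← hX] at hXq
  have hqn : q - 1 ≤ n := by
    have : q * 1 ≤ q * P := Nat.mul_le_mul_left _ (by omega)
    omega
  have hXK : X ^ K ≤ q - 1 := (Nat.le_mul_of_pos_left _ (by omega)).trans hXq
  have hpw : ∀ K' : ℕ, K' ≤ K → X ^ K' ≤ X ^ K := fun K' h => Nat.pow_le_pow_right hX1 h
  have hgrow := hgr n q X (by omega) hnq (((hpw K2 (by omega)).trans hXK).trans hqn)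
  obtain ⟨r, hr⟩ : ∃ r : ℕ, r = ⌊(n : ℝ) ^ (1 - ε / 4)⌋₊ := ⟨_, rfl⟩
  rw [← hr] at hgrow
  have hrq : r < q - 1 := by
    have h2 : 1 * 1 ≤ C * X := Nat.mul_le_mul (by omega) hX1
    have h3 : (1 * 1) * (10 * (2 * P + r + 10)) ≤ C * X * (10 * (2 * P + r + 10)) :=
      Nat.mul_le_mul_right _ h2
    omega
  have hpr' := hpr n k (by omega) (by rw [← hX]; exact ((hpw K1 (by omega)).trans hXK).trans hqn)
  obtain ⟨Sg, b, g1, g2, g3⟩ := hpr'
  -- facts on the primes in Sg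
  have hs : ∀ s ∈ Sg, ∃ u : ℕ, s = 3 + 2 * u ∧ s ≤ r := by
    intro s hs
    obtain ⟨a1, a2, a3, -⟩ := g2 s hs
    have hodd : s % 2 = 1 := by
      rcases a1.eq_two_or_odd with h | h
      · omega
      · exact h
    refine ⟨(s - 3) / 2, by omega, ?_⟩
    rw [hr]
    exact Nat.le_floor a3
  obtain ⟨σ, hσ⟩ : ∃ σ : ℕ → ℕ, ∀ s, σ s = ((s - 3) / 2 % P) * q + (s - 3) / 2 / P :=
    ⟨_, fun _ => rfl⟩
  have hσ' : ∀ s ∈ Sg, aa P q H (σ s) = s ∧ aa P q H (σ s + 1) = s + 2 * P ∧ σ s + 1 < H := by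
    intro s hsS
    obtain ⟨u, hu, hur⟩ := hs s hsS
    have hu2 : (s - 3) / 2 = u := by omega
    have h3 : u % P < P := Nat.mod_lt _ (by omega)
    have h4 : u / P < q - 1 := by
      have := Nat.div_le_self u P
      omega
    obtain ⟨b1, b2, b3⟩ := haa P q H (u % P) (u / P) (by omega) h3 h4 hqH
    have h5 : u % P + P * (u / P) = u := Nat.mod_add_div u P
    rw [hσ, hu2]
    rw [h5] at b1 b2
    exact ⟨by rw [b1, hu], by rw [b2, hu], b3⟩
  have hσinj : ∀ s ∈ Sg, ∀ t ∈ Sg, σ s = σ t → s = t := by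
    intro s hs1 t ht1 hst
    rw [← (hσ' s hs1).1, ← (hσ' t ht1).1, hst]
  obtain ⟨Sx, hSx⟩ : ∃ Sx : Finset ℕ, Sx = Sg.image σ := ⟨_, rfl⟩
  obtain ⟨Bx, hBx⟩ : ∃ Bx : Finset ℕ, Bx = Sg.image b := ⟨_, rfl⟩
  have hcS : Sx.card = Sg.card := by
    rw [hSx]
    exact Finset.card_image_of_injOn (fun s hs1 t ht1 h => hσinj s hs1 t ht1 h)
  have hcB : Bx.card = Sg.card := by
    rw [hBx]
    exact Finset.card_image_of_injOn (fun s hs1 t ht1 h => g3 s hs1 t ht1 h)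
  have hcr : Sg.card ≤ r := by
    have h5 : Sg ⊆ Icc 1 r := by
      intro s hs1
      obtain ⟨u, hu, hur⟩ := hs s hs1
      exact mem_Icc.2 ⟨by omega, hur⟩
    simpa using Finset.card_le_card h5
  have hSxm : Sx ⊆ range m := by
    intro x hx
    rw [hSx, mem_image] at hx
    obtain ⟨s, hs1, rfl⟩ := hx
    have := (hσ' s hs1).2.2
    exact mem_range.2 (by omega)
  have hBxm : Bx ⊆ Icc 1 m := by
    intro x hx
    rw [hBx, mem_image] at hx
    obtain ⟨s, hs1, rfl⟩ := hx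
    obtain ⟨-, -, -, a4, a5, -⟩ := g2 s hs1
    exact mem_Icc.2 ⟨a4, by omega⟩
  have hm88 : C0 * X ^ 88 ≤ q - 1 :=
    (Nat.mul_le_mul (show C0 ≤ C by omega) (hpw 88 (by omega))).trans hXq
  have hgrow' : C0 * X * (10 * (2 * P + r + 10)) ≤ q - 1 :=
    (Nat.mul_le_mul_right _ (Nat.mul_le_mul_right _ (show C0 ≤ C by omega))).trans hgrow
  rw [hX] at hm88 hgrow'
  obtain ⟨f0, e1, e2⟩ := hC0 k q m H r nx Sx Bx hqH hHm hmq hm88 hgrow' hnx hSxm hBxm
    (by omega) (by omega)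
  obtain ⟨f, hf⟩ : ∃ f : ℕ → ℕ, ∀ x, f x = if x ∈ Sx then b (aa P q H x) else f0 x :=
    ⟨_, fun _ => rfl⟩
  have hfs : ∀ s ∈ Sg, f (σ s) = b s := by
    intro s hs1
    rw [hf, if_pos (by rw [hSx]; exact mem_image_of_mem _ hs1), (hσ' s hs1).1]
  refine ⟨f, Sx, ?_, ?_, hSxm, ?_, ?_⟩
  · intro x hx
    by_cases hxS : x ∈ Sx
    · have hx' := hxS
      rw [hSx, mem_image] at hx'
      obtain ⟨s, hs1, rfl⟩ := hx'
      obtain ⟨-, -, -, a4, a5, -, a7, a8⟩ := g2 s hs1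
      obtain ⟨c1, c2, c3⟩ := hσ' s hs1
      rw [hfs s hs1]
      refine ⟨a4, by omega, ?_⟩
      unfold GG
      rw [hnx _ c3, c1, c2]
      exact ⟨a7, a8⟩
    · have h2 : x ∈ range m \ Sx := mem_sdiff.2 ⟨mem_range.2 hx, hxS⟩
      obtain ⟨d1, d2⟩ := e1 x h2
      have d3 := mem_Icc.1 (mem_sdiff.1 d1).1
      rw [hf, if_neg hxS]
      exact ⟨d3.1, d3.2, d2⟩
  · have hmix : ∀ x < m, ∀ y < m, x ∈ Sx → y ∉ Sx → f x ≠ f y := by
      intro x hx y hy hxS hyS hxy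
      have h2 : y ∈ range m \ Sx := mem_sdiff.2 ⟨mem_range.2 hy, hyS⟩
      have d1 := (mem_sdiff.1 (e1 y h2).1).2
      rw [hSx, mem_image] at hxS
      obtain ⟨s, hs1, rfl⟩ := hxS
      rw [hfs s hs1, hf y, if_neg hyS] at hxy
      apply d1
      rw [← hxy, hBx]
      exact mem_image_of_mem _ hs1
    intro x hx y hy hxy
    by_cases hxS : x ∈ Sx
    · by_cases hyS : y ∈ Sx
      · rw [hSx, mem_image] at hxS hyS
        obtain ⟨s, hs1, rfl⟩ := hxS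
        obtain ⟨t, ht1, rfl⟩ := hyS
        rw [hfs s hs1, hfs t ht1] at hxy
        rw [g3 s hs1 t ht1 hxy]
      · exact absurd hxy (hmix x hx y hy hxS hyS)
    · by_cases hyS : y ∈ Sx
      · exact absurd hxy.symm (hmix y hy x hx hyS hxS)
      · rw [hf x, hf y, if_neg hxS, if_neg hyS] at hxy
        exact e2 x (mem_sdiff.2 ⟨mem_range.2 hx, hxS⟩) y (mem_sdiff.2 ⟨mem_range.2 hy, hyS⟩) hxy
  · rw [hcS]
    exact g1
  · intro x hx
    rw [hSx, mem_image] at hx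
    obtain ⟨s, hs1, rfl⟩ := hx
    rw [hfs s hs1, (hσ' s hs1).1]
    exact (g2 s hs1).2.2.2.2.2.1

/-- the level belonging to `m`, with a variable exponent -/
lemma levelC (C K m : ℕ) (hC : 1 ≤ C) (hK : 1 ≤ K) (hm : C * (2 ^ 2 ^ (4 + 0)) ^ K ≤ m) :
    ∃ k, C * (2 ^ 2 ^ (4 + k)) ^ K ≤ m ∧ m < C * (2 ^ 2 ^ (4 + k)) ^ (2 * K) := by
  have hex : ∃ k, m < C * (2 ^ 2 ^ (4 + k)) ^ K := by
    refine ⟨m, ?_⟩
    have h1 : m < 2 ^ m := Nat.lt_two_pow_self
    have h2 : 2 ^ m ≤ 2 ^ 2 ^ (4 + m) := by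
      apply Nat.pow_le_pow_right (by norm_num)
      have : 4 + m < 2 ^ (4 + m) := Nat.lt_two_pow_self
      omega
    have h3 : 2 ^ 2 ^ (4 + m) ≤ (2 ^ 2 ^ (4 + m)) ^ K := Nat.le_self_pow (by omega) _
    have h4 : (2 ^ 2 ^ (4 + m)) ^ K ≤ C * (2 ^ 2 ^ (4 + m)) ^ K := Nat.le_mul_of_pos_left _ hC
    omega
  classical
  have hs := Nat.find_spec hex
  have hne : Nat.find hex ≠ 0 := by
    intro h0
    rw [h0] at hs
    omega
  obtain ⟨k, hk⟩ := Nat.exists_eq_succ_of_ne_zero hne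
  refine ⟨k, ?_, ?_⟩
  · have := Nat.find_min hex (m := k) (by omega)
    omega
  · rw [hk] at hs
    have e : (2 ^ 2 ^ (4 + k.succ)) ^ K = (2 ^ 2 ^ (4 + k)) ^ (2 * K) := by
      rw [← pow_mul, ← pow_mul]
      congr 1
      rw [show 4 + k.succ = 4 + k + 1 by omega, pow_succ]
      ring
    rwa [e] at hs

/-- a product with the `Fr` property has few prime factors, all of them large -/
lemma fin_QB (C K : ℕ) (hC : 1 ≤ C) : ∃ n1 : ℕ,
    ∀ k n x y M : ℕ, n1 ≤ n → n ≤ C * M → M < C * (2 ^ 2 ^ (4 + k)) ^ (2 * K) →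
      1 ≤ x → x ≤ n → 2 ≤ y → y ≤ n → Fr k x y → QB (4 * K + 1) n (x * y - 1) := by
  refine ⟨C ^ 2 * (C ^ 4) ^ (2 * K) + 1, ?_⟩
  intro k n x y M hn1 hn hM hx1 hx hy1 hy hg
  have hX2 : 2 ≤ 2 ^ 2 ^ (4 + k) := by
    calc 2 = 2 ^ 1 := rfl
      _ ≤ 2 ^ 2 ^ (4 + k) := Nat.pow_le_pow_right (by norm_num) Nat.one_le_two_pow
  have hPK : ∀ p : ℕ, p.Prime → p ≤ 2 ^ 2 ^ (4 + k) → (x * y) % p ≠ 1 := fun p hp hle =>
    hg p (mem_PK.2 ⟨hp, hle⟩)
  generalize hXX : 2 ^ 2 ^ (4 + k) = X at hM hX2 hPK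
  have hnX : n ≤ C ^ 2 * X ^ (2 * K) := by
    calc n ≤ C * M := hn
      _ ≤ C * (C * X ^ (2 * K)) := Nat.mul_le_mul_left _ hM.le
      _ = C ^ 2 * X ^ (2 * K) := by ring
  have hXC : C ^ 4 < X := by
    by_contra hle
    push Not at hle
    have h1 : C ^ 2 * X ^ (2 * K) ≤ C ^ 2 * (C ^ 4) ^ (2 * K) :=
      Nat.mul_le_mul_left _ (Nat.pow_le_pow_left hle _)
    omega
  have hXpos : 0 < X ^ (4 * K) := Nat.pow_pos (by omega)
  have hnn : n * n < X ^ (4 * K + 1) := by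
    calc n * n ≤ (C ^ 2 * X ^ (2 * K)) * (C ^ 2 * X ^ (2 * K)) := Nat.mul_le_mul hnX hnX
      _ = C ^ 4 * X ^ (4 * K) := by ring
      _ < X * X ^ (4 * K) := Nat.mul_lt_mul_of_pos_right hXC hXpos
      _ = X ^ (4 * K + 1) := by ring
  have hxy : 2 ≤ x * y := by nlinarith
  have hlt : x * y - 1 < X ^ (4 * K + 1) := by
    have : x * y ≤ n * n := Nat.mul_le_mul hx hy
    omega
  have hbig : ∀ p : ℕ, p.Prime → p ∣ x * y - 1 → X < p := by
    intro p hp hd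
    by_contra hle
    push Not at hle
    apply hPK p hp hle
    obtain ⟨c, hc⟩ := hd
    have e : x * y = 1 + p * c := by omega
    rw [e, Nat.add_mul_mod_self_left, Nat.mod_eq_of_lt hp.one_lt]
  refine ⟨(omega_le hX2 (by omega) hlt hbig).trans (by omega), ?_⟩
  intro p hp hd
  have hpX := hbig p hp hd
  have hC2 : C ^ 2 ≤ C ^ 4 := Nat.pow_le_pow_right hC (by norm_num)
  have hXpos' : 0 < X ^ (2 * K) := Nat.pow_pos (by omega)
  calc n ≤ C ^ 2 * X ^ (2 * K) := hnX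
    _ < X * X ^ (2 * K) := Nat.mul_lt_mul_of_pos_right (by omega) hXpos'
    _ = X ^ (2 * K + 1) := by ring
    _ ≤ X ^ (4 * K + 1) := Nat.pow_le_pow_right (by omega) (by omega)
    _ ≤ p ^ (4 * K + 1) := Nat.pow_le_pow_left hpX.le _

/-- the version with many primes from the pieces -/
theorem p_many (hPex : T_P) (hcls : T_cls) (htwo : T_two) (hrl : T_rl) (hgood : T_good)
    (hdega : V_dega) (hdeg : V_deg) (hin : V_in) (hWd : T_W) (hgl : V_glob) (haa : T_aa)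
    (he : S_exp) (hE : V_cirE) (hO : V_cirO) (hprm : U_prm) : S_many := by
  intro ε h0 h1
  obtain ⟨P, hP⟩ := hPex
  have hP3 : 3 ≤ P := hP.2.2.1
  obtain ⟨C, K, n2, hC, hK1, hmat⟩ := matD haa hprm
    (matC hcls htwo hrl hgood hdega hdeg hin hWd hgl haa he) P hP ε h0 h1
  obtain ⟨n1, hQ⟩ := fin_QB C K (by omega)
  obtain ⟨m0, hm0'⟩ : ∃ m0 : ℕ, m0 = C * (2 ^ 2 ^ (4 + 0)) ^ K := ⟨_, rfl⟩
  have hm0ge : C ≤ m0 := by
    have : 1 ≤ (2 ^ 2 ^ (4 + 0)) ^ K := Nat.one_le_pow _ _ Nat.one_le_two_pow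
    rw [hm0']
    exact Nat.le_mul_of_pos_right C this
  obtain ⟨n0, hn0⟩ : ∃ n0 : ℕ, n0 = 2 * ((m0 + 2) * P) + n1 + n2 + 4 := ⟨_, rfl⟩
  obtain ⟨B, hB⟩ : ∃ B : ℕ, B = n0 * n0 + (4 * K + 1) := ⟨_, rfl⟩
  have hn0B : n0 ≤ B := by
    have := Nat.le_mul_self n0
    omega
  refine ⟨B, fun n hn => ?_⟩
  rcases lt_or_ge n n0 with hsm | hbg
  · obtain ⟨π, p1, p2, p3⟩ := small_caseB n0 B (by omega) n hn hsm
    exact ⟨π, p1, p2, fun i hi => Or.inl (p3 i hi).1, fun h => by omega⟩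
  -- the common part
  have hcommon : ∀ m H : ℕ, (m0 + 2) * P ≤ H → H ≤ m → m ≤ H + 1 → 2 * m ≤ n → n ≤ 2 * m + 1 →
      ∀ nx : ℕ → ℕ, (∀ x, x + 1 < H → nx x = x + 1) →
      ∃ (k : ℕ) (f : ℕ → ℕ) (Z : Finset ℕ), 1 ≤ H / P ∧ H / P * P ≤ H ∧
        (∀ x < m, 1 ≤ f x ∧ f x ≤ m ∧ GG P k (H / P) H nx x (f x)) ∧
        (∀ x < m, ∀ y < m, f x = f y → x = y) ∧
        (Z ⊆ range m ∧ (n : ℝ) ^ (1 - ε) ≤ Z.card ∧
          ∀ x ∈ Z, (aa P (H / P) H x * (2 * f x) - 1).Prime) ∧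
        ∀ x y : ℕ, 1 ≤ x → x ≤ n → 2 ≤ y → y ≤ n → Fr k x y → QB B n (x * y - 1) := by
    intro m H h1 h2 h3 h4 h4' nx hnx
    set q := H / P with hq
    have hq1 : m0 + 2 ≤ q := by
      rw [hq]
      exact (Nat.le_div_iff_mul_le (by omega)).2 h1
    have hqH : q * P ≤ H := Nat.div_mul_le_self H P
    have hqH2 : H < (q + 1) * P := by
      have := Nat.lt_mul_div_succ H (show 0 < P by omega)
      rw [← hq] at this
      calc H < P * (q + 1) := this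
        _ = (q + 1) * P := by ring
    obtain ⟨k, k1, k2⟩ := levelC C K (q - 1) (by omega) hK1 (by rw [← hm0']; omega)
    have hnq : n ≤ C * (q - 1) := by
      have e1 : (q + 1) * P ≤ (3 * P) * (q - 1) := by
        obtain ⟨r, hr⟩ : ∃ r, q = r + 2 := ⟨q - 2, by omega⟩
        rw [hr, show r + 2 - 1 = r + 1 by omega]
        nlinarith
      have e2 : n ≤ 2 * ((q + 1) * P) + 1 := by omega
      have e3 : 1 ≤ (3 * P) * (q - 1) := by
        have : 1 * 1 ≤ (3 * P) * (q - 1) := Nat.mul_le_mul (by omega) (by omega)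
        omega
      calc n ≤ 3 * ((3 * P) * (q - 1)) := by omega
        _ = (9 * P) * (q - 1) := by ring
        _ ≤ C * (q - 1) := Nat.mul_le_mul_right _ (by omega)
    obtain ⟨f, Z, f1, f2, f3, f4, f5⟩ := hmat n k q m H nx (by omega) hqH h2 (by omega) h4 h4'
      hnq k1 hnx
    refine ⟨k, f, Z, by omega, hqH, f1, f2, ⟨f3, f4, f5⟩, ?_⟩
    intro x y hx1 hx hy1 hy hxy
    obtain ⟨u1, u2⟩ := hQ k n x y (q - 1) (by omega) hnq k2 hx1 hx hy1 hy hxy
    exact ⟨u1.trans (by omega), fun p hp hd => (u2 p hp hd).trans_le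
        (Nat.pow_le_pow_right hp.pos (by omega))⟩
  have haapos : ∀ P' q' H' j, 1 ≤ aa P' q' H' j := by
    intro P' q' H' j
    unfold aa
    split_ifs <;> omega
  -- counting
  have hcount : ∀ (m M : ℕ) (π f a : ℕ → ℕ) (Z : Finset ℕ), 2 * m ≤ M → 1 ≤ M → Z ⊆ range m →
      (n : ℝ) ^ (1 - ε) ≤ Z.card → (∀ x ∈ Z, (a x * (2 * f x) - 1).Prime) →
      (∀ j < m, π (2 * j) = a j ∧ π (2 * j + 1) = 2 * f j) →
      (n : ℝ) ^ (1 - ε) ≤
        (((range M).filter (fun i => (π i * π ((i + 1) % M) - 1).Prime)).card : ℝ) := by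
    intro m M π f a Z hM1 hM2 hZ1 hZ2 hZ3 hπ
    refine hZ2.trans ?_
    have h5 : Z.card ≤ ((range M).filter (fun i => (π i * π ((i + 1) % M) - 1).Prime)).card := by
      apply Finset.card_le_card_of_injOn (fun x => 2 * x)
      · intro x hx
        have hx' : x ∈ Z := Finset.mem_coe.1 hx
        have hxm := mem_range.1 (hZ1 hx')
        have e0 : (2 * x + 1) % M = 2 * x + 1 := Nat.mod_eq_of_lt (by omega)
        rw [Finset.mem_coe, mem_filter, mem_range]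
        change 2 * x < M ∧ (π (2 * x) * π ((2 * x + 1) % M) - 1).Prime
        refine ⟨by omega, ?_⟩
        rw [e0, (hπ x hxm).1, (hπ x hxm).2]
        exact hZ3 x hx'
      · intro x _ y _ hxy
        simp only at hxy
        omega
    exact_mod_cast h5
  rcases Nat.even_or_odd' n with ⟨m, hm | hm⟩
  · -- even case
    obtain ⟨k, f, Z, g1, g2, g3, g4, ⟨z1, z2, z3⟩, g5⟩ := hcommon m (m - 1) (by omega) (by omega)
      (by omega) (by omega) (by omega) (fun j => (j + 1) % m)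
      (fun x hx => Nat.mod_eq_of_lt (by omega))
    have hP0 : 0 < P := by omega
    have haale : ∀ j, j < m → aa P ((m - 1) / P) (m - 1) j ≤ n := by
      intro j hj
      unfold aa ga
      set q := (m - 1) / P with hq
      split_ifs with c1 c2
      · have e1 : j % q < q := Nat.mod_lt _ (by omega)
        have e2 : j / q < P := by
          rw [Nat.div_lt_iff_lt_mul (by omega)]
          calc j < q * P := c2
            _ = P * q := by ring
        have e3 : (j % q) * P + P ≤ q * P := by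
          have : (j % q + 1) * P ≤ q * P := Nat.mul_le_mul_right _ e1
          calc (j % q) * P + P = (j % q + 1) * P := by ring
            _ ≤ q * P := this
        omega
      · omega
      · omega
    obtain ⟨π, q1, q2, q3, q4⟩ := hE m P ((m - 1) / P)
      (fun x y => QB B n (x * y - 1) ∨ (Odd n ∧ x = 1 ∧ y = 3)) f (by omega) hP0 g1 g2
      (by
        intro j hj
        obtain ⟨f1, f2, f3, f4⟩ := g3 j hj
        refine ⟨f1, f2, Or.inl ?_, Or.inl ?_⟩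
        · exact g5 _ _ (haapos _ _ _ _) (haale j hj) (by omega) (by omega) f3
        · rw [mul_comm]
          exact g5 _ _ (haapos _ _ _ _) (haale _ (Nat.mod_lt _ (by omega))) (by omega)
            (by omega) f4) g4
    have hcnt := hcount m (2 * m) π f _ Z le_rfl (by omega) z1 z2 z3 q4
    rw [← hm] at q1 q2 q3 hcnt
    exact ⟨π, q1, q2, fun i hi => q3 i hi, fun _ => hcnt⟩
  · -- odd case
    obtain ⟨k, f, Z, g1, g2, g3, g4, ⟨z1, z2, z3⟩, g5⟩ := hcommon m m (by omega) (by omega)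
      (by omega) (by omega) (by omega) (fun j => j + 1) (fun x _ => rfl)
    have hP0 : 0 < P := by omega
    have haale : ∀ j, j ≤ m → aa P (m / P) m j ≤ n := by
      intro j hj
      unfold aa ga
      set q := m / P with hq
      split_ifs with c1 c2
      · have e1 : j % q < q := Nat.mod_lt _ (by omega)
        have e2 : j / q < P := by
          rw [Nat.div_lt_iff_lt_mul (by omega)]
          calc j < q * P := c2
            _ = P * q := by ring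
        have e3 : (j % q) * P + P ≤ q * P := by
          have : (j % q + 1) * P ≤ q * P := Nat.mul_le_mul_right _ e1
          calc (j % q) * P + P = (j % q + 1) * P := by ring
            _ ≤ q * P := this
        omega
      · omega
      · omega
    have hodd : Odd n := ⟨m, hm⟩
    obtain ⟨π, q1, q2, q3, q4⟩ := hO m P (m / P)
      (fun x y => QB B n (x * y - 1) ∨ (Odd n ∧ x = 1 ∧ y = 3)) f (by omega) hP0 g1 g2
      (Or.inr ⟨hodd, rfl, rfl⟩)
      (by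
        intro j hj
        obtain ⟨f1, f2, f3, f4⟩ := g3 j hj
        refine ⟨f1, f2, Or.inl ?_, Or.inl ?_⟩
        · exact g5 _ _ (haapos _ _ _ _) (haale j hj.le) (by omega) (by omega) f3
        · rw [mul_comm]
          exact g5 _ _ (haapos _ _ _ _) (haale _ hj) (by omega)
            (by omega) f4) g4
    have hcnt := hcount m (2 * m + 1) π f _ Z (by omega) (by omega) z1 z2 z3 q4
    rw [← hm] at q1 q2 q3 hcnt
    exact ⟨π, q1, q2, fun i hi => q3 i hi, fun _ => hcnt⟩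

end Pool.Agent.APC
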