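import Pool.Agent.Lib.MP_e0f8f3_nt.DefsE
import Pool.Agent.Lib.MP_e0f8f3_nt.FinD

set_option autoImplicit false

/-!
Assembly of the version with an absolute bound and a long arc of primes.
-/

namespace Pool.Agent.APC

open Finset
open Pool.Agent.BVall

/-- the version with an absolute bound and a long arc of primes -/
def S_best : Prop := ∃ B : ℕ, ∀ ε : ℝ, 0 < ε → ε < 1 → ∃ n1 : ℕ, ∀ n : ℕ, 3 ≤ n →
  ∃ π : ℕ → ℕ,
  (∀ i < n, 1 ≤ π i ∧ π i ≤ n) ∧ (∀ i < n, ∀ j < n, π i = π j → i = j) ∧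
  (∀ i < n, QX B n (π i * π ((i + 1) % n) - 1) ∨ (Odd n ∧ π i = 1 ∧ π ((i + 1) % n) = 3)) ∧
  (n1 ≤ n → ∃ a l : ℕ, (n : ℝ) ^ (1 - ε) ≤ l ∧ a + l < n ∧
    ∀ i, a ≤ i → i < a + l → (π i * π (i + 1) - 1).Prime)

/-- robust matchings -/
lemma matC2 (hcls : T_cls) (htwo : T_two) (hrl : T_rl) (hgood : T_good) (hdega : V_dega2)
    (hdeg : V_deg2) (hin : V_in) (hWd : T_W) (hgl : V_glob) (haa : T_aa) (he : S_exp) :
    ∀ P : ℕ, IsP P → ∃ C : ℕ, ∀ (k q m H r : ℕ) (nx : ℕ → ℕ) (Sx Bx : Finset ℕ), q * P ≤ H →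
      H ≤ m → m ≤ (q + 1) * P → C * (2 ^ 2 ^ (4 + k)) ^ 88 ≤ q - 1 →
      C * 2 ^ (16 * k) * (10 * (2 * P + r + 10)) ≤ q - 1 →
      (∀ x, x + 1 < H → nx x = x + 1) →
      Sx ⊆ range m → Bx ⊆ Icc 1 m → Sx.card = Bx.card → Bx.card ≤ r →
      ∃ f : ℕ → ℕ, (∀ x ∈ range m \ Sx, f x ∈ Icc 1 m \ Bx ∧ GG P k q H nx x (f x)) ∧
        ∀ x ∈ range m \ Sx, ∀ y ∈ range m \ Sx, f x = f y → x = y := by
  intro P hP
  have hP3 : 3 ≤ P := hP.2.2.1
  obtain ⟨φ, p1, p2, p3, p4⟩ := hcls P hP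
  obtain ⟨M0, hin⟩ := hin
  obtain ⟨C1, hdeg⟩ := hdeg P hP
  obtain ⟨C2, hdega⟩ := hdega
  obtain ⟨C3, he⟩ := he
  refine ⟨C1 + C2 + C3 + M0 + 10, fun k q m H r nx Sx Bx hqH hHm hmq hC hC' hnx hSx hBx hSB hBr =>
    ?_⟩
  set X : ℕ := 2 ^ 2 ^ (4 + k) with hX
  have hX1 : 1 ≤ X := Nat.one_le_two_pow
  set Y : ℕ := 2 ^ (16 * k) with hY
  have hY1 : 1 ≤ Y := Nat.one_le_two_pow
  have hmono : ∀ C' : ℕ, C' ≤ C1 + C2 + C3 + M0 + 10 → C' * X ^ 88 ≤ q - 1 := fun C' h =>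
    (Nat.mul_le_mul_right _ h).trans hC
  have hbase : C1 + C2 + C3 + M0 + 10 ≤ q - 1 := by
    have h4 : 1 ≤ X ^ 88 := Nat.one_le_pow _ _ hX1
    calc C1 + C2 + C3 + M0 + 10 = (C1 + C2 + C3 + M0 + 10) * 1 := (mul_one _).symm
      _ ≤ (C1 + C2 + C3 + M0 + 10) * X ^ 88 := Nat.mul_le_mul_left _ h4
      _ ≤ q - 1 := hC
  obtain ⟨F, hF⟩ : ∃ F : ℕ, F = 2 * P + r := ⟨_, rfl⟩
  obtain ⟨D, hD⟩ : ∃ D : ℕ, D = 10 * (F + 10) := ⟨_, rfl⟩
  rw [← hF, ← hD] at hC'
  -- from the lower bounds to D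
  have hdiv : ∀ C' N c : ℕ, C' ≤ C1 + C2 + C3 + M0 + 10 → q - 1 ≤ N → N ≤ C' * Y * c → D ≤ c := by
    intro C' N c h1 h2 h3
    have h4 : (C1 + C2 + C3 + M0 + 10) * Y * D ≤ (C1 + C2 + C3 + M0 + 10) * Y * c :=
      calc (C1 + C2 + C3 + M0 + 10) * Y * D ≤ q - 1 := hC'
        _ ≤ N := h2
        _ ≤ C' * Y * c := h3
        _ ≤ (C1 + C2 + C3 + M0 + 10) * Y * c :=
          Nat.mul_le_mul_right _ (Nat.mul_le_mul_right _ h1)
    exact Nat.le_of_mul_le_mul_left h4 (Nat.mul_pos (by omega) (by omega))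
  have hq1 : 1 ≤ q := by omega
  have hqm : q * P ≤ m := hqH.trans hHm
  have hWex : ∀ c, ∃ w0 N : ℕ, c < P → (q ≤ N ∧ N ≤ q + 1 ∧
      ∀ w, (w0 ≤ w ∧ w < w0 + N) ↔ (1 ≤ c + P * w ∧ c + P * w ≤ m)) := by
    intro c
    by_cases hc : c < P
    · obtain ⟨w0, N, h⟩ := hWd P q m c (by omega) hc hqm hmq hq1
      exact ⟨w0, N, fun _ => h⟩
    · exact ⟨0, 0, fun h => absurd h hc⟩
  choose w0 N hWN using hWex
  have hN1 : ∀ c < P, q ≤ N c := fun c hc => (hWN c hc).1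
  have hN2 : ∀ c < P, N c ≤ q + 1 := fun c hc => (hWN c hc).2.1
  have hsplit : (q + 1) * P = (q - 1) * P + 2 * P := by
    obtain ⟨r, rfl⟩ : ∃ r, q = r + 1 := ⟨q - 1, by omega⟩
    rw [Nat.add_sub_cancel]
    ring
  -- degrees on the slot side
  have hdegS : ∀ i c t, i < P → c < P → Cm P i c → t < q - 1 →
      D ≤ {w | w ∈ Ico (w0 c) (w0 c + N c) ∧
        GG P k q H nx (i * q + t) (c + P * w)}.ncard := by
    intro i c t hi hc hcm ht
    obtain ⟨-, r2, r3, -⟩ := hrl P hP i c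
    have h := hdega k (N c) (w0 c) (fun p w => RlB P i c p t w)
      ((hmono C2 (by omega)).trans (by have := hN1 c hc; omega)) (fun p w => r2 p t w)
      (fun p hp => r3 p t hp)
    have e : {w | w ∈ Ico (w0 c) (w0 c + N c) ∧ GG P k q H nx (i * q + t) (c + P * w)} =
        {w | w ∈ Ico (w0 c) (w0 c + N c) ∧ ∀ p ∈ PK 4 k, ¬ RlB P i c p t w} := by
      ext w
      simp only [Set.mem_ofPred_eq]
      rw [GG_iff hgood haa hP hqH hnx hi ht hcm]
    rw [e]
    exact hdiv C2 (N c) _ (by omega) (by have := hN1 c hc; omega) h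
  obtain ⟨f, hf1, hf2⟩ := hgl P q m F r φ w0 N (GG P k q H nx) Sx Bx (by omega) hq1 hqm
    (by omega) hSx hBx hSB hBr p1 p2 (fun c hc w => (hWN c hc).2.2 w)
    (fun c hc => by have := hN1 c hc; omega)
    (by
      intro x hx
      obtain ⟨c, hc, hcc⟩ := htwo P hP (aa P q H x) (aa P q H (nx x))
      have h := hdeg k (N c) (w0 c) (aa P q H x) (aa P q H (nx x)) c
        ((hmono C1 (by omega)).trans (by have := hN1 c hc; omega)) hcc
      have h' := hdiv C1 (N c) _ (by omega) (by have := hN1 c hc; omega) h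
      refine le_trans (by omega) (h'.trans ?_)
      apply Set.ncard_le_ncard_of_injOn (fun w => c + P * w)
      · intro w hw
        simp only [Set.mem_ofPred_eq, mem_Ico, mem_Icc] at hw ⊢
        have h2 := ((hWN c hc).2.2 w).1 hw.1
        exact ⟨h2, hw.2⟩
      · intro a _ b _ hab
        simp only at hab
        have h5 : P * a = P * b := by omega
        exact Nat.eq_of_mul_eq_mul_left (by omega) h5)
    (by
      intro i hi S hS hSne
      have hci : φ i < P := p1 i hi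
      have hcm : Cm P i (φ i) := p3 i hi
      obtain ⟨r1, r2, r3, r4⟩ := hrl P hP i (φ i)
      have hN1i := hN1 _ hci
      have hN2i := hN2 _ hci
      have hB0 : (Ico (w0 (φ i)) (w0 (φ i) + N (φ i))).card = N (φ i) := by simp
      have hJ0 : (range (q - 1)).card = q - 1 := by simp
      have hGG : ∀ t < q - 1, ∀ w, GG P k q H nx (i * q + t) (φ i + P * w) ↔
          ∀ p ∈ PK 4 k, ¬ RlB P i (φ i) p t w := fun t ht w =>
        GG_iff hgood haa hP hqH hnx hi ht hcm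
      have key := hin F D (by omega) (fun t w => GG P k q H nx (i * q + t) (φ i + P * w))
        (range (q - 1))
        (Ico (w0 (φ i)) (w0 (φ i) + N (φ i))) (by rw [hB0]; omega) (by rw [hB0, hJ0]; omega)
        (by rw [hB0, hJ0]; omega)
        (by
          intro t ht
          exact hdegS i (φ i) t hi hci hcm (mem_range.1 ht))
        (by
          intro w hw
          have h := hdega k (q - 1) 0 (fun p t => RlB P i (φ i) p t w)
            (hmono C2 (by omega)) (fun p t => r1 p t w) (fun p hp => r4 p w hp)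
          have h' := hdiv C2 (q - 1) _ (by omega) le_rfl h
          refine h'.trans (le_of_eq ?_)
          congr 1
          ext t
          simp only [Set.mem_ofPred_eq, mem_Ico, mem_range, zero_add, Nat.zero_le, true_and]
          constructor
          · rintro ⟨h1, h2⟩
            exact ⟨h1, (hGG t h1 w).2 h2⟩
          · rintro ⟨h1, h2⟩
            exact ⟨h1, (hGG t h1 w).1 h2⟩)
        (by
          intro T hT
          rw [hB0]
          have h := he k (N (φ i)) (q - 1) 0 (w0 (φ i)) (RlB P i (φ i))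
            ((hmono C3 (by omega)).trans (by omega)) (by omega) r1 r2 r3 r4 T
            (by rw [zero_add, ← range_eq_Ico]; exact hT)
          have e : {y | y ∈ Ico (w0 (φ i)) (w0 (φ i) + N (φ i)) ∧ ∃ x ∈ T,
              GG P k q H nx (i * q + x) (φ i + P * y)} =
              {y | y ∈ Ico (w0 (φ i)) (w0 (φ i) + N (φ i)) ∧ ∃ x ∈ T,
                ∀ p ∈ PK 4 k, ¬ RlB P i (φ i) p x y} := by
            ext y
            simp only [Set.mem_ofPred_eq]
            refine and_congr_right fun _ => exists_congr fun x => and_congr_right fun hx => ?_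
            exact hGG x (mem_range.1 (hT hx)) y
          rw [e]
          exact h)
        (by
          intro T hT
          rw [hJ0]
          have h := he k (q - 1) (N (φ i)) (w0 (φ i)) 0 (fun p w t => RlB P i (φ i) p t w)
            (hmono C3 (by omega)) (by omega) (fun p w t => r2 p t w) (fun p w t => r1 p t w)
            (fun p w hp => r4 p w hp) (fun p t hp => r3 p t hp) T hT
          have e : {x | x ∈ range (q - 1) ∧ ∃ y ∈ T,
              GG P k q H nx (i * q + x) (φ i + P * y)} =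
              {x | x ∈ Ico 0 (0 + (q - 1)) ∧ ∃ y ∈ T,
                ∀ p ∈ PK 4 k, ¬ RlB P i (φ i) p x y} := by
            ext x
            simp only [Set.mem_ofPred_eq, mem_Ico, mem_range, zero_add, Nat.zero_le, true_and]
            refine and_congr_right fun hx => exists_congr fun y => and_congr_right fun _ => ?_
            exact hGG x hx y
          rw [e]
          exact h) S hS hSne
      exact key)
    (by
      intro I hI hIne hIr
      obtain ⟨i, hi, j, hj, hcm⟩ := p4 I hI hIne hIr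
      refine ⟨i, hi, j, hj, fun t ht => ?_⟩
      have hi' := mem_range.1 (hI hi)
      have hj' := mem_range.1 (mem_sdiff.1 hj).1
      exact le_trans (by omega) (hdegS i (φ j) t hi' (p1 j hj') hcm ht))
  exact ⟨f, hf1, hf2⟩

/-- degrees for two arbitrary numbers -/
lemma degC2 (htwo : T_two) (hdeg : V_deg2) (hWd : T_W) : ∀ P : ℕ, IsP P → ∃ C : ℕ,
    ∀ (k q m D x y : ℕ), q * P ≤ m → m ≤ (q + 1) * P → 1 ≤ q →
      C * (2 ^ 2 ^ (4 + k)) ^ 88 ≤ q - 1 → C * 2 ^ (16 * k) * D ≤ q - 1 →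
      D ≤ {v | v ∈ Icc 1 m ∧ (Fr k x (2 * v) ∧ Fr k y (2 * v))}.ncard := by
  intro P hP
  have hP3 : 3 ≤ P := hP.2.2.1
  obtain ⟨C1, hdeg⟩ := hdeg P hP
  refine ⟨C1 + 1, fun k q m D x y hqm hmq hq1 hC hC' => ?_⟩
  set X : ℕ := 2 ^ 2 ^ (4 + k) with hX
  have hX1 : 1 ≤ X := Nat.one_le_two_pow
  set Y : ℕ := 2 ^ (16 * k) with hY
  have hY1 : 1 ≤ Y := Nat.one_le_two_pow
  obtain ⟨c, hc, hcc⟩ := htwo P hP x y
  obtain ⟨w0, N, n1, n2, n3⟩ := hWd P q m c (by omega) hc hqm hmq hq1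
  have h := hdeg k N w0 x y c
    ((Nat.mul_le_mul_right _ (show C1 ≤ C1 + 1 by omega)).trans (hC.trans (by omega))) hcc
  have h' : D ≤ {w | w ∈ Ico w0 (w0 + N) ∧ Fr k x (2 * (c + P * w)) ∧
      Fr k y (2 * (c + P * w))}.ncard := by
    have h4 : (C1 + 1) * Y * D ≤ (C1 + 1) * Y * {w | w ∈ Ico w0 (w0 + N) ∧
        Fr k x (2 * (c + P * w)) ∧ Fr k y (2 * (c + P * w))}.ncard :=
      calc (C1 + 1) * Y * D ≤ q - 1 := hC'
        _ ≤ N := by omega
        _ ≤ C1 * Y * _ := h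
        _ ≤ (C1 + 1) * Y * _ := Nat.mul_le_mul_right _ (Nat.mul_le_mul_right _ (by omega))
    exact Nat.le_of_mul_le_mul_left h4 (Nat.mul_pos (by omega) (by omega))
  refine h'.trans ?_
  apply Set.ncard_le_ncard_of_injOn (fun w => c + P * w)
  · intro w hw
    simp only [Set.mem_ofPred_eq, mem_Ico, mem_Icc] at hw ⊢
    have h2 := (n3 w).1 hw.1
    exact ⟨h2, hw.2⟩
  · intro a _ b _ hab
    simp only at hab
    have h5 : P * a = P * b := by omega
    exact Nat.eq_of_mul_eq_mul_left (by omega) h5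

/-- growth -/
lemma growthE (C P : ℕ) (hC : 1 ≤ C) (ε : ℝ) (h0 : 0 < ε) (h1 : ε < 1) :
    ∃ n0 : ℕ, ∀ n q k : ℕ, n0 ≤ n → n ≤ C * (q - 1) → (2 ^ 2 ^ (4 + k)) ^ 88 ≤ n →
      C * 2 ^ (16 * k) * (10 * (2 * P + ⌊(n : ℝ) ^ (1 - ε / 4)⌋₊ + 10)) ≤ q - 1 := by
  have hev : ∀ᶠ x : ℝ in Filter.atTop, ((10 * C ^ 2 * (2 * P + 11) : ℕ) : ℝ) ≤ x ^ (ε / 8) :=
    (tendsto_rpow_atTop (by positivity)).eventually_ge_atTop _
  have hev2 : ∀ᶠ x : ℝ in Filter.atTop, ‖Real.log x‖ ≤ 1 * ‖x ^ (ε / 128)‖ :=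
    (isLittleO_log_rpow_atTop (show 0 < ε / 128 by positivity)).bound (by norm_num)
  obtain ⟨n0, hn0⟩ := Filter.eventually_atTop.1
    (tendsto_natCast_atTop_atTop.eventually (hev.and hev2) : ∀ᶠ n : ℕ in Filter.atTop,
      ((10 * C ^ 2 * (2 * P + 11) : ℕ) : ℝ) ≤ (n : ℝ) ^ (ε / 8) ∧
        ‖Real.log n‖ ≤ 1 * ‖(n : ℝ) ^ (ε / 128)‖)
  refine ⟨n0 + 1, fun n q k hn hq hX => ?_⟩
  obtain ⟨hg, hl⟩ := hn0 n (by omega)
  have hn1 : (1 : ℝ) ≤ n := by exact_mod_cast (show 1 ≤ n by omega)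
  have hnpos : (0 : ℝ) < n := by linarith
  have hlog0 : 0 ≤ Real.log n := Real.log_nonneg hn1
  rw [Real.norm_of_nonneg hlog0, Real.norm_of_nonneg (Real.rpow_nonneg hnpos.le _), one_mul] at hl
  have hYn : ((2 ^ (16 * k) : ℕ) : ℝ) ≤ (n : ℝ) ^ (ε / 8) := by
    have e0 : (2 : ℕ) ^ 2 ^ (4 + k) ≤ n := (Nat.le_self_pow (by norm_num) _).trans hX
    have e1 : ((2 : ℝ)) ^ 2 ^ (4 + k) ≤ n := by exact_mod_cast e0
    have e2 : (2 : ℝ) ^ k ≤ Real.log n := by
      have h3 := Real.log_le_log (by positivity) e1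
      rw [Real.log_pow] at h3
      have h4 : (1 / 2 : ℝ) ≤ Real.log 2 := by
        have := Real.log_two_gt_d9
        linarith
      have h5 : (((2 ^ (4 + k) : ℕ)) : ℝ) = 16 * (2 : ℝ) ^ k := by
        push_cast
        rw [pow_add]
        norm_num
      rw [h5] at h3
      have h6 : (0 : ℝ) < (2 : ℝ) ^ k := by positivity
      nlinarith
    calc ((2 ^ (16 * k) : ℕ) : ℝ) = ((2 : ℝ) ^ k) ^ 16 := by
          push_cast
          rw [← pow_mul, mul_comm]
      _ ≤ ((n : ℝ) ^ (ε / 128)) ^ 16 := pow_le_pow_left₀ (by positivity) (e2.trans hl) _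
      _ = (n : ℝ) ^ (ε / 8) := by
          rw [← Real.rpow_natCast, ← Real.rpow_mul hnpos.le]
          congr 1
          push_cast
          ring
  obtain ⟨X, hXX⟩ : ∃ X : ℕ, X = 2 ^ (16 * k) := ⟨_, rfl⟩
  rw [← hXX] at hYn ⊢
  have hfl : (⌊(n : ℝ) ^ (1 - ε / 4)⌋₊ : ℝ) ≤ (n : ℝ) ^ (1 - ε / 4) :=
    Nat.floor_le (Real.rpow_nonneg hnpos.le _)
  have hone : (1 : ℝ) ≤ (n : ℝ) ^ (1 - ε / 4) := Real.one_le_rpow hn1 (by linarith)
  have hCpos : (0 : ℝ) < C := by exact_mod_cast hC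
  have hmain : (C : ℝ) * ((C : ℝ) * X * (10 * (2 * P + (⌊(n : ℝ) ^ (1 - ε / 4)⌋₊ : ℝ) + 10))) ≤
      n := by
    have s1 : (2 * (P : ℝ) + (⌊(n : ℝ) ^ (1 - ε / 4)⌋₊ : ℝ) + 10) ≤
        (2 * P + 11) * (n : ℝ) ^ (1 - ε / 4) := by
      have : (0 : ℝ) ≤ P := Nat.cast_nonneg _
      nlinarith
    have s2 : (n : ℝ) ^ (ε / 8) * (n : ℝ) ^ (ε / 8) * (n : ℝ) ^ (1 - ε / 4) = n := by
      rw [← Real.rpow_add hnpos, ← Real.rpow_add hnpos]
      have : ε / 8 + ε / 8 + (1 - ε / 4) = 1 := by ring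
      rw [this, Real.rpow_one]
    have s3 : (10 * (C : ℝ) ^ 2 * (2 * P + 11)) ≤ (n : ℝ) ^ (ε / 8) := by
      have := hg
      push_cast at this
      exact this
    have hY : (0 : ℝ) ≤ (n : ℝ) ^ (1 - ε / 4) := by linarith
    calc (C : ℝ) * ((C : ℝ) * X * (10 * (2 * P + (⌊(n : ℝ) ^ (1 - ε / 4)⌋₊ : ℝ) + 10)))
        = (10 * (C : ℝ) ^ 2 * X) * (2 * P + (⌊(n : ℝ) ^ (1 - ε / 4)⌋₊ : ℝ) + 10) := by ring
      _ ≤ (10 * (C : ℝ) ^ 2 * X) * ((2 * P + 11) * (n : ℝ) ^ (1 - ε / 4)) :=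
          mul_le_mul_of_nonneg_left s1 (by positivity)
      _ = (10 * (C : ℝ) ^ 2 * (2 * P + 11)) * X * (n : ℝ) ^ (1 - ε / 4) := by ring
      _ ≤ (n : ℝ) ^ (ε / 8) * (n : ℝ) ^ (ε / 8) * (n : ℝ) ^ (1 - ε / 4) := by
          apply mul_le_mul_of_nonneg_right _ hY
          exact mul_le_mul s3 hYn (Nat.cast_nonneg _) (Real.rpow_nonneg hnpos.le _)
      _ = n := s2
  have hnat : C * (C * X * (10 * (2 * P + ⌊(n : ℝ) ^ (1 - ε / 4)⌋₊ + 10))) ≤ n := by
    exact_mod_cast hmain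
  exact Nat.le_of_mul_le_mul_left (hnat.trans hq) hC

/-- matchings with a long arc of primes -/
lemma matE2 (haa : T_aa) (hYa : Y_aa) (hgre : Y_gre) (hord : Y_ord) (hpath : Y_path)
    (hdC : ∀ P : ℕ, IsP P → ∃ C : ℕ,
      ∀ (k q m D x y : ℕ), q * P ≤ m → m ≤ (q + 1) * P → 1 ≤ q →
        C * (2 ^ 2 ^ (4 + k)) ^ 88 ≤ q - 1 → C * 2 ^ (16 * k) * D ≤ q - 1 →
        D ≤ {v | v ∈ Icc 1 m ∧ (Fr k x (2 * v) ∧ Fr k y (2 * v))}.ncard)
    (hC0 : ∀ P : ℕ, IsP P → ∃ C : ℕ, ∀ (k q m H r : ℕ) (nx : ℕ → ℕ) (Sx Bx : Finset ℕ),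
      q * P ≤ H →
      H ≤ m → m ≤ (q + 1) * P → C * (2 ^ 2 ^ (4 + k)) ^ 88 ≤ q - 1 →
      C * 2 ^ (16 * k) * (10 * (2 * P + r + 10)) ≤ q - 1 →
      (∀ x, x + 1 < H → nx x = x + 1) →
      Sx ⊆ range m → Bx ⊆ Icc 1 m → Sx.card = Bx.card → Bx.card ≤ r →
      ∃ f : ℕ → ℕ, (∀ x ∈ range m \ Sx, f x ∈ Icc 1 m \ Bx ∧ GG P k q H nx x (f x)) ∧
        ∀ x ∈ range m \ Sx, ∀ y ∈ range m \ Sx, f x = f y → x = y) :
    ∀ P : ℕ, IsP P → ∃ C : ℕ, 10 * P ≤ C ∧ ∀ ε : ℝ, 0 < ε → ε < 1 → ∃ n0 : ℕ,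
      ∀ (n k q m H : ℕ) (ν : ℕ → ℕ), n0 ≤ n → q * P ≤ H → H ≤ m → m ≤ H + 1 →
      m ≤ (q + 1) * P →
      2 * m ≤ n → n ≤ 2 * m + 1 → n ≤ C * (q - 1) → 2 ≤ q →
      C * (2 ^ 2 ^ (4 + k)) ^ 88 ≤ q - 1 →
      (∀ x, x < H → ν x = x + 1) →
      ∃ (o f : ℕ → ℕ) (L : ℕ), (∀ i ≤ H, ∀ j ≤ H, o i = o j → i = j) ∧
        (∀ j ≤ H, Odd (o j) ∧ o j ≤ 2 * H + 1) ∧ o H = 1 ∧ o 0 = 3 ∧
        (∀ j < m, 1 ≤ f j ∧ f j ≤ m ∧ Gd k n (o j) (2 * f j) ∧ Gd k n (o (ν j)) (2 * f j)) ∧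
        (∀ i < m, ∀ j < m, f i = f j → i = j) ∧ (n : ℝ) ^ (1 - ε) ≤ L ∧ L + 1 < H ∧
        ∀ j < L, (o (H - (L + 1) + j) * (2 * f (H - (L + 1) + j)) - 1).Prime ∧
          (o (H - (L + 1) + j + 1) * (2 * f (H - (L + 1) + j)) - 1).Prime := by
  intro P hP
  have hP3 : 3 ≤ P := hP.2.2.1
  obtain ⟨C0, hC0⟩ := hC0 P hP
  obtain ⟨C1, hdC⟩ := hdC P hP
  obtain ⟨C, hC⟩ : ∃ C : ℕ, C = 2 * C0 + C1 + 10 * P := ⟨_, rfl⟩
  refine ⟨C, by omega, fun ε h0 h1 => ?_⟩
  obtain ⟨n1, hpa⟩ := hpath ε h0 h1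
  obtain ⟨n2, hgr⟩ := growthE C P (by omega) (ε / 3) (by positivity) (by linarith)
  refine ⟨n1 + n2 + 1, ?_⟩
  intro n k q m H ν hn hqH hHm hmH hmq hm1 hm2 hnq hq2 hXq hν
  obtain ⟨X, hX⟩ : ∃ X : ℕ, X = 2 ^ 2 ^ (4 + k) := ⟨_, rfl⟩
  obtain ⟨Y, hY⟩ : ∃ Y : ℕ, Y = 2 ^ (16 * k) := ⟨_, rfl⟩
  have hX1 : 1 ≤ X := by rw [hX]; exact Nat.one_le_two_pow
  have hY1 : 1 ≤ Y := by rw [hY]; exact Nat.one_le_two_pow
  have hqP : q * 1 ≤ q * P := Nat.mul_le_mul_left _ (by omega)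
  have hqn : q - 1 ≤ n := by omega
  rw [← hX] at hXq
  have hXK : X ^ 88 ≤ q - 1 := (Nat.le_mul_of_pos_left _ (by omega)).trans hXq
  have hgrow := hgr n q k (by omega) hnq (by rw [← hX]; exact hXK.trans hqn)
  rw [← hY] at hgrow
  rw [show (1 - ε / 3 / 4 : ℝ) = 1 - ε / 12 by ring] at hgrow
  obtain ⟨ρ, hρ⟩ : ∃ ρ : ℕ, ρ = ⌊(n : ℝ) ^ (1 - ε / 12)⌋₊ := ⟨_, rfl⟩
  rw [← hρ] at hgrow
  have hρq : ρ < q - 1 := by
    have h2 : 1 * 1 ≤ C * Y := Nat.mul_le_mul (by omega) hY1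
    have h3 : (1 * 1) * (10 * (2 * P + ρ + 10)) ≤ C * Y * (10 * (2 * P + ρ + 10)) :=
      Nat.mul_le_mul_right _ h2
    omega
  obtain ⟨L, s, b, g1, g2, g3, g4, g5⟩ := hpa n (by omega)
  obtain ⟨y1, y2, y3, y4, y5, y6⟩ := hYa P q H (by omega) (by omega) hqH
  obtain ⟨a, ha⟩ : ∃ a : ℕ → ℕ, a = aa P q H := ⟨_, rfl⟩
  rw [← ha] at y1 y2 y3 y4 y5 y6
  have hsρ : ∀ j ≤ L, s j ≤ ρ := by
    intro j hj
    rw [hρ]
    exact Nat.le_floor (g2 j hj).2.2.2
  have hLρ : L + 1 ≤ ρ := by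
    have h5 : ((range (L + 1)).image s) ⊆ Icc 1 ρ := by
      intro x hx
      rw [mem_image] at hx
      obtain ⟨j, hj, rfl⟩ := hx
      rw [mem_range] at hj
      have := (g2 j (by omega)).2.1
      exact mem_Icc.2 ⟨by omega, hsρ j (by omega)⟩
    have h6 : ((range (L + 1)).image s).card = L + 1 := by
      rw [Finset.card_image_of_injOn, card_range]
      intro x hx y hy hxy
      rw [Finset.mem_coe, mem_range] at hx hy
      exact g4 x (by omega) y (by omega) hxy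
    have h7 := Finset.card_le_card h5
    rw [h6, Nat.card_Icc] at h7
    omega
  have hLH : L + 1 < H := by omega
  have hsa : ∀ j ≤ L, ∃ x, 0 < x ∧ x < H ∧ a x = s j := by
    intro j hj
    obtain ⟨a1, a2, -, -⟩ := g2 j hj
    have hodd : s j % 2 = 1 := by
      rcases a1.eq_two_or_odd with h | h
      · omega
      · exact h
    have hb := hsρ j hj
    obtain ⟨x, x1, x2⟩ := y6 ((s j - 3) / 2) (by omega)
    have e : 3 + 2 * ((s j - 3) / 2) = s j := by omega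
    rw [e] at x2
    refine ⟨x, ?_, x1, x2⟩
    rcases Nat.eq_zero_or_pos x with h | h
    · subst h
      have := y5 (by omega)
      omega
    · exact h
  obtain ⟨o, τ, o1, o2, o3, o4, o5, o6⟩ := hord H L a s hLH hsa y3 g4
  -- intact slots
  obtain ⟨I, hI⟩ : ∃ I : Finset ℕ, ∀ x, x ∈ I ↔ (x < q * P ∧ x % q < q - 1) ∧
      ∀ j ≤ L, a x ≠ s j ∧ a (x + 1) ≠ s j := by
    classical
    refine ⟨(range (q * P)).filter (fun x => x % q < q - 1 ∧
      ∀ j ≤ L, a x ≠ s j ∧ a (x + 1) ≠ s j), fun x => ?_⟩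
    rw [mem_filter, mem_range, and_assoc]
  have hIH : ∀ x ∈ I, x + 1 < H := by
    intro x hx
    obtain ⟨⟨x1, x2⟩, -⟩ := (hI x).1 hx
    have h3 : x / q < P := by
      rw [Nat.div_lt_iff_lt_mul (by omega)]
      calc x < q * P := x1
        _ = P * q := by ring
    obtain ⟨-, -, b3⟩ := haa P q H (x / q) (x % q) (by omega) h3 x2 hqH
    have : x / q * q + x % q = x := by rw [mul_comm]; exact Nat.div_add_mod x q
    omega
  have hIm : I ⊆ range m := fun x hx => mem_range.2 (by have := hIH x hx; omega)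
  have hτ : ∀ x ∈ I, τ x + 1 < H - (L + 1) ∧ o (τ x) = a x ∧ o (τ x + 1) = a (x + 1) :=
    fun x hx => o6 x (hIH x hx) ((hI x).1 hx).2
  have hτinj : ∀ x ∈ I, ∀ y ∈ I, τ x = τ y → x = y := by
    intro x hx y hy hxy
    have e1 := (hτ x hx).2.1
    have e2 := (hτ y hy).2.1
    rw [hxy, e2] at e1
    have := hIH x hx
    have := hIH y hy
    exact (y3 y (by omega) x (by omega) e1).symm
  -- the removed virtual slots
  obtain ⟨Sx, hSx⟩ : ∃ Sx : Finset ℕ, Sx = range m \ I := ⟨_, rfl⟩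
  have hSxc : Sx.card + I.card = m := by
    rw [hSx, Finset.card_sdiff_of_subset hIm, card_range]
    have := Finset.card_le_card hIm
    rw [card_range] at this
    omega
  obtain ⟨r, hr⟩ : ∃ r : ℕ, r = 2 * P + 2 * (L + 1) := ⟨_, rfl⟩
  have hSxr : Sx.card ≤ r := by
    classical
    have c1 : Sx ⊆ ((range m).filter (fun x => ¬ (x < q * P ∧ x % q < q - 1))) ∪
        (((range H).filter (fun x => a x ∈ (range (L + 1)).image s)) ∪
          ((range H).filter (fun x => a (x + 1) ∈ (range (L + 1)).image s))) := by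
      intro x hx
      rw [hSx, mem_sdiff, mem_range, hI] at hx
      rw [mem_union, mem_filter, mem_range, mem_union, mem_filter, mem_filter, mem_range]
      by_cases hreg : x < q * P ∧ x % q < q - 1
      · right
        have hxH : x < H := by omega
        have h3 : ¬ ∀ j ≤ L, a x ≠ s j ∧ a (x + 1) ≠ s j := fun h => hx.2 ⟨hreg, h⟩
        push Not at h3
        obtain ⟨j, hj, h4⟩ := h3
        by_cases h5 : a x = s j
        · left
          exact ⟨hxH, mem_image.2 ⟨j, mem_range.2 (by omega), h5.symm⟩⟩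
        · right
          exact ⟨hxH, mem_image.2 ⟨j, mem_range.2 (by omega), (h4 h5).symm⟩⟩
      · left
        exact ⟨hx.1, hreg⟩
    have c2 := nonreg_card P q m (by omega) (by omega) hmq
    have c3 : ((range H).filter (fun x => a x ∈ (range (L + 1)).image s)).card ≤ L + 1 := by
      have : ((range H).filter (fun x => a x ∈ (range (L + 1)).image s)).card ≤
          ((range (L + 1)).image s).card := by
        apply Finset.card_le_card_of_injOn a
        · intro x hx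
          rw [Finset.mem_coe, mem_filter] at hx
          exact Finset.mem_coe.2 hx.2
        · intro x hx y hy hxy
          rw [Finset.mem_coe, mem_filter, mem_range] at hx hy
          exact y3 x (by omega) y (by omega) hxy
      exact this.trans (Finset.card_image_le.trans (by simp))
    have c4 : ((range H).filter (fun x => a (x + 1) ∈ (range (L + 1)).image s)).card ≤ L + 1 := by
      have : ((range H).filter (fun x => a (x + 1) ∈ (range (L + 1)).image s)).card ≤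
          ((range (L + 1)).image s).card := by
        apply Finset.card_le_card_of_injOn (fun x => a (x + 1))
        · intro x hx
          rw [Finset.mem_coe, mem_filter] at hx
          exact Finset.mem_coe.2 hx.2
        · intro x hx y hy hxy
          rw [Finset.mem_coe, mem_filter, mem_range] at hx hy
          have := y3 (x + 1) (by omega) (y + 1) (by omega) hxy
          omega
      exact this.trans (Finset.card_image_le.trans (by simp))
    have c5 := Finset.card_le_card c1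
    have c6 := Finset.card_union_le ((range m).filter (fun x => ¬ (x < q * P ∧ x % q < q - 1)))
      (((range H).filter (fun x => a x ∈ (range (L + 1)).image s)) ∪
          ((range H).filter (fun x => a (x + 1) ∈ (range (L + 1)).image s)))
    have c7 := Finset.card_union_le ((range H).filter (fun x => a x ∈ (range (L + 1)).image s))
          ((range H).filter (fun x => a (x + 1) ∈ (range (L + 1)).image s))
    omega
  -- real slots
  obtain ⟨T, hT⟩ : ∃ T : Finset ℕ, T = I.image τ := ⟨_, rfl⟩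
  have hTc : T.card = I.card := by
    rw [hT]
    exact Finset.card_image_of_injOn (fun x hx y hy h => hτinj x hx y hy h)
  have hTlt : ∀ y ∈ T, y + 1 < H - (L + 1) := by
    intro y hy
    rw [hT, mem_image] at hy
    obtain ⟨x, hx, rfl⟩ := hy
    exact (hτ x hx).1
  obtain ⟨Q, hQ⟩ : ∃ Q : Finset ℕ, Q = Ico (H - (L + 1)) (H - 1) := ⟨_, rfl⟩
  have hQc : Q.card = L := by
    rw [hQ, Nat.card_Ico]
    omega
  have hTQ : Disjoint T Q := by
    rw [Finset.disjoint_left]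
    intro y hy hy'
    have := hTlt y hy
    rw [hQ, mem_Ico] at hy'
    omega
  have hTQm : T ∪ Q ⊆ range m := by
    intro y hy
    rw [mem_union] at hy
    rw [mem_range]
    rcases hy with hy | hy
    · have := hTlt y hy
      omega
    · rw [hQ, mem_Ico] at hy
      omega
  obtain ⟨J, hJ⟩ : ∃ J : Finset ℕ, J = range m \ (T ∪ Q) := ⟨_, rfl⟩
  have hJc : J.card + I.card + L = m := by
    have e1 : (T ∪ Q).card = I.card + L := by
      rw [Finset.card_union_of_disjoint hTQ, hTc, hQc]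
    have e2 := Finset.card_le_card hTQm
    rw [card_range] at e2
    rw [hJ, Finset.card_sdiff_of_subset hTQm, card_range]
    omega
  obtain ⟨U, hU⟩ : ∃ U : Finset ℕ, U = (range L).image b := ⟨_, rfl⟩
  have hUc : U.card = L := by
    rw [hU, Finset.card_image_of_injOn, card_range]
    intro x hx y hy hxy
    rw [Finset.mem_coe, mem_range] at hx hy
    exact g5 x hx y hy hxy
  -- bounds on r
  have hr2 : r ≤ 10 * (2 * P + ρ + 10) := by omega
  have hm88 : C0 * X ^ 88 ≤ q - 1 :=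
    (Nat.mul_le_mul_right _ (show C0 ≤ C by omega)).trans hXq
  have hm88' : C1 * X ^ 88 ≤ q - 1 :=
    (Nat.mul_le_mul_right _ (show C1 ≤ C by omega)).trans hXq
  have hgrow1 : C1 * Y * r ≤ q - 1 :=
    (Nat.mul_le_mul (Nat.mul_le_mul_right _ (show C1 ≤ C by omega)) hr2).trans hgrow
  have hgrow0 : C0 * Y * (10 * (2 * P + r + 10)) ≤ q - 1 := by
    calc C0 * Y * (10 * (2 * P + r + 10)) ≤ C0 * Y * (2 * (10 * (2 * P + ρ + 10))) :=
          Nat.mul_le_mul_left _ (by omega)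
      _ = (2 * C0) * Y * (10 * (2 * P + ρ + 10)) := by ring
      _ ≤ C * Y * (10 * (2 * P + ρ + 10)) :=
          Nat.mul_le_mul_right _ (Nat.mul_le_mul_right _ (by omega))
      _ ≤ q - 1 := hgrow
  rw [hX] at hm88 hm88'
  rw [hY] at hgrow0 hgrow1
  obtain ⟨g, e1, e2⟩ := hgre J U m (fun x v => Fr k (o x) (2 * v) ∧ Fr k (o (ν x)) (2 * v))
    (by
      intro x hx
      refine le_trans (by omega) (hdC k q m r (o x) (o (ν x)) (hqH.trans hHm) hmq (by omega)
        hm88' hgrow1))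
  obtain ⟨Bx, hBx⟩ : ∃ Bx : Finset ℕ, Bx = U ∪ J.image g := ⟨_, rfl⟩
  have hgJ : Disjoint U (J.image g) := by
    rw [Finset.disjoint_left]
    intro v hv hv'
    rw [mem_image] at hv'
    obtain ⟨x, hx, rfl⟩ := hv'
    exact (e1 x hx).2.1 hv
  have hBxc : Bx.card = Sx.card := by
    have e3 : (J.image g).card = J.card :=
      Finset.card_image_of_injOn (fun x hx y hy h => e2 x hx y hy h)
    rw [hBx, Finset.card_union_of_disjoint hgJ, hUc, e3]
    omega
  have hBxm : Bx ⊆ Icc 1 m := by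
    intro v hv
    rw [hBx, mem_union] at hv
    rcases hv with hv | hv
    · rw [hU, mem_image] at hv
      obtain ⟨j, hj, rfl⟩ := hv
      rw [mem_range] at hj
      obtain ⟨b1, b2, -, -⟩ := g3 j hj
      exact mem_Icc.2 ⟨b1, by omega⟩
    · rw [mem_image] at hv
      obtain ⟨x, hx, rfl⟩ := hv
      exact (e1 x hx).1
  obtain ⟨f0, e3, e4⟩ := hC0 k q m H r (fun x => x + 1) Sx Bx hqH hHm hmq hm88 hgrow0
    (fun x _ => rfl) (by rw [hSx]; exact sdiff_subset) hBxm hBxc.symm (by omega)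
  have hIS : ∀ x ∈ I, x ∈ range m \ Sx := by
    intro x hx
    rw [hSx, mem_sdiff, mem_sdiff]
    exact ⟨hIm hx, fun h => h.2 hx⟩
  -- the inverse of tau
  have hinv : ∀ y, ∃ x, y ∈ T → x ∈ I ∧ τ x = y := by
    intro y
    by_cases hy : y ∈ T
    · have hy' := hy
      rw [hT, mem_image] at hy'
      obtain ⟨x, hx, hxy⟩ := hy'
      exact ⟨x, fun _ => ⟨hx, hxy⟩⟩
    · exact ⟨0, fun h => absurd h hy⟩
  choose ti hti using hinv
  obtain ⟨f, hf⟩ : ∃ f : ℕ → ℕ, ∀ y, f y = if y ∈ Q then b (y - (H - (L + 1))) else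
      if y ∈ J then g y else f0 (ti y) := ⟨_, fun _ => rfl⟩
  have hfQ : ∀ y ∈ Q, f y = b (y - (H - (L + 1))) := fun y hy => by rw [hf, if_pos hy]
  have hQJ : ∀ y ∈ J, y ∉ Q := by
    intro y hy hyQ
    rw [hJ, mem_sdiff, mem_union] at hy
    exact hy.2 (Or.inr hyQ)
  have hfJ : ∀ y ∈ J, f y = g y := fun y hy => by rw [hf, if_neg (hQJ y hy), if_pos hy]
  have hfT : ∀ y ∈ T, f y = f0 (ti y) := by
    intro y hy
    have n1 : y ∉ Q := fun h => (Finset.disjoint_left.1 hTQ) hy h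
    have n2 : y ∉ J := by
      rw [hJ, mem_sdiff, mem_union]
      exact fun h => h.2 (Or.inl hy)
    rw [hf, if_neg n1, if_neg n2]
  have hcases : ∀ y < m, y ∈ Q ∨ y ∈ J ∨ y ∈ T := by
    intro y hy
    by_cases hyQ : y ∈ Q
    · exact Or.inl hyQ
    · by_cases hyT : y ∈ T
      · exact Or.inr (Or.inr hyT)
      · right; left
        rw [hJ, mem_sdiff, mem_union, mem_range]
        exact ⟨hy, fun h => h.elim hyT hyQ⟩
  have hQb : ∀ y ∈ Q, ∃ j < L, y = H - (L + 1) + j ∧ f y = b j := by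
    intro y hy
    have hy' := hy
    rw [hQ, mem_Ico] at hy'
    exact ⟨y - (H - (L + 1)), by omega, by omega, hfQ y hy⟩
  have hprime : ∀ j < L, ∀ x, (x = s j ∨ x = s (j + 1)) → (x * (2 * b j) - 1).Prime ∧
      n < (x * (2 * b j) - 1) ^ 4 := by
    intro j hj x hx
    obtain ⟨b1, b2, b3, b4⟩ := g3 j hj
    have hn4 : n < x ^ 4 := by
      rcases hx with rfl | rfl
      · exact (g2 j (by omega)).2.2.1
      · exact (g2 (j + 1) (by omega)).2.2.1
    have hpr : (x * (2 * b j) - 1).Prime := by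
      rcases hx with rfl | rfl
      · exact b3
      · exact b4
    refine ⟨hpr, hn4.trans_le (Nat.pow_le_pow_left ?_ 4)⟩
    have h5 : x * 2 ≤ x * (2 * b j) := Nat.mul_le_mul_left _ (by omega)
    have h6 : 0 < x := by
      rcases Nat.eq_zero_or_pos x with h | h
      · subst h
        simp at hn4
      · exact h
    omega
  refine ⟨o, f, L, o1, ?_, by rw [o3, y4], by rw [o4, y5 (by omega)], ?_, ?_, g1, hLH, ?_⟩
  · intro j hj
    obtain ⟨x, hx, hox⟩ := o2 j hj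
    rw [hox]
    exact ⟨y1 x, y2 x hx⟩
  · intro y hy
    rcases hcases y hy with h | h | h
    · obtain ⟨j, hj, hyj, hfy⟩ := hQb y h
      obtain ⟨b1, b2, b3, b4⟩ := g3 j hj
      have hyH : y < H := by omega
      have e5 : o y = s j := by rw [hyj]; exact o5 j (by omega)
      have e6 : o (ν y) = s (j + 1) := by
        rw [hν y hyH, hyj, add_assoc]
        exact o5 (j + 1) (by omega)
      rw [hfy, e5, e6]
      exact ⟨b1, by omega, Or.inr (hprime j hj _ (Or.inl rfl)), Or.inr (hprime j hj _ (Or.inr rfl))⟩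
    · obtain ⟨d1, -, d2, d3⟩ := e1 y h
      rw [hfJ y h]
      have d4 := mem_Icc.1 d1
      exact ⟨d4.1, d4.2, Or.inl d2, Or.inl d3⟩
    · obtain ⟨x1, x2⟩ := hti y h
      obtain ⟨t1, t2, t3⟩ := hτ _ x1
      obtain ⟨d1, d2⟩ := e3 _ (hIS _ x1)
      have d3 := mem_Icc.1 (mem_sdiff.1 d1).1
      rw [hfT y h]
      rw [x2] at t1 t2 t3
      have hyH : y < H := by omega
      rw [hν y hyH, t2, t3, ha]
      exact ⟨d3.1, d3.2, Or.inl d2.1, Or.inl d2.2⟩
  · refine inj_three m (fun y => y ∈ Q) (fun y => y ∈ J) (fun y => y ∈ T) f U (J.image g)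
      hcases ?_ ?_ ?_ ?_ ?_ ?_
    · intro y hy
      obtain ⟨j, hj, -, hfy⟩ := hQb y hy
      rw [hfy, hU]
      exact mem_image_of_mem _ (mem_range.2 hj)
    · intro y hy
      rw [hfJ y hy]
      exact ⟨(e1 y hy).2.1, mem_image_of_mem _ hy⟩
    · intro y hy
      rw [hfT y hy]
      have h6 := (mem_sdiff.1 (e3 _ (hIS _ (hti y hy).1)).1).2
      rw [hBx, mem_union] at h6
      exact ⟨fun h => h6 (Or.inl h), fun h => h6 (Or.inr h)⟩
    · intro y z hy hz hyz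
      obtain ⟨j, hj, hyj, hfy⟩ := hQb y hy
      obtain ⟨i, hi, hzi, hfz⟩ := hQb z hz
      rw [hfy, hfz] at hyz
      have := g5 j hj i hi hyz
      omega
    · intro y z hy hz hyz
      rw [hfJ y hy, hfJ z hz] at hyz
      exact e2 y hy z hz hyz
    · intro y z hy hz hyz
      rw [hfT y hy, hfT z hz] at hyz
      have := e4 _ (hIS _ (hti y hy).1) _ (hIS _ (hti z hz).1) hyz
      rw [← (hti y hy).2, ← (hti z hz).2, this]
  · intro j hj
    have hjQ : H - (L + 1) + j ∈ Q := by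
      rw [hQ, mem_Ico]
      omega
    have e5 : f (H - (L + 1) + j) = b j := by
      rw [hfQ _ hjQ]
      congr 1
      omega
    obtain ⟨b1, b2, b3, b4⟩ := g3 j hj
    rw [e5, o5 j (by omega), add_assoc, o5 (j + 1) (by omega)]
    exact ⟨b3, b4⟩

/-- the version with a long arc of primes from the pieces -/
theorem p_best (hstr : S_strong) (hPex : T_P) (hcls : T_cls) (htwo : T_two) (hrl : T_rl) (hgood : T_good)
    (hdega : V_dega2) (hdeg : V_deg2) (hin : V_in) (hWd : T_W) (hgl : V_glob) (haa : T_aa)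
    (he : S_exp) (hE : Y_cirE) (hO : Y_cirO) (hYa : Y_aa) (hgre : Y_gre) (hord : Y_ord)
    (hpath : Y_path) : S_best := by
  obtain ⟨P, hP⟩ := hPex
  have hP3 : 3 ≤ P := hP.2.2.1
  obtain ⟨B0, hstr⟩ := hstr
  obtain ⟨C, hC, hmat⟩ := matE2 haa hYa hgre hord hpath (degC2 htwo hdeg hWd)
    (matC2 hcls htwo hrl hgood hdega hdeg hin hWd hgl haa he) P hP
  obtain ⟨n1, hQ⟩ := fin_QX C (by omega)
  obtain ⟨B, hB⟩ : ∃ B : ℕ, B = B0 + 352 := ⟨_, rfl⟩
  refine ⟨B, fun ε h0 h1 => ?_⟩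
  obtain ⟨n2, hmat⟩ := hmat ε h0 h1
  obtain ⟨m0, hm0'⟩ : ∃ m0 : ℕ, m0 = C * (2 ^ 2 ^ (4 + 0)) ^ 88 := ⟨_, rfl⟩
  have hm0ge : C ≤ m0 := by
    have : 1 ≤ (2 ^ 2 ^ (4 + 0)) ^ 88 := Nat.one_le_pow _ _ Nat.one_le_two_pow
    rw [hm0']
    exact Nat.le_mul_of_pos_right C this
  obtain ⟨n0, hn0⟩ : ∃ n0 : ℕ, n0 = 2 * ((m0 + 2) * P) + n1 + n2 + 4 := ⟨_, rfl⟩
  refine ⟨n0, fun n hn => ?_⟩
  rcases lt_or_ge n n0 with hsm | hbg
  · obtain ⟨π, p1, p2, p3⟩ := hstr n hn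
    refine ⟨π, p1, p2, fun i hi => ?_, fun h => by omega⟩
    rcases p3 i hi with h | h
    · left
      refine ⟨⟨h.1.1.trans (by omega), fun p hp hd => (h.1.2 p hp hd).trans_le
        (Nat.pow_le_pow_right hp.pos (by omega))⟩, fun hBn => h.2 (by omega)⟩
    · exact Or.inr h
  -- the common part
  have hcommon : ∀ m H : ℕ, (m0 + 2) * P ≤ H → H ≤ m → m ≤ H + 1 → 2 * m ≤ n → n ≤ 2 * m + 1 →
      2 * H + 1 ≤ n →
      ∀ ν : ℕ → ℕ, (∀ x, x < H → ν x = x + 1) → (∀ x < m, ν x ≤ H) →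
      ∃ (o f : ℕ → ℕ) (L : ℕ), (∀ i ≤ H, ∀ j ≤ H, o i = o j → i = j) ∧
        (∀ j ≤ H, Odd (o j) ∧ o j ≤ 2 * H + 1) ∧ o H = 1 ∧ o 0 = 3 ∧
        (∀ j < m, 1 ≤ f j ∧ f j ≤ m ∧ (j ≤ H → QX B n (o j * (2 * f j) - 1)) ∧
          QX B n (2 * f j * o (ν j) - 1)) ∧
        (∀ i < m, ∀ j < m, f i = f j → i = j) ∧ (n : ℝ) ^ (1 - ε) ≤ L ∧ L + 1 < H ∧
        ∀ j < L, (o (H - (L + 1) + j) * (2 * f (H - (L + 1) + j)) - 1).Prime ∧
          (o (H - (L + 1) + j + 1) * (2 * f (H - (L + 1) + j)) - 1).Prime := by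
    intro m H h1 h2 h3 h4 h4' h5 ν hν hν'
    set q := H / P with hq
    have hq1 : m0 + 2 ≤ q := by
      rw [hq]
      exact (Nat.le_div_iff_mul_le (by omega)).2 h1
    have hqH : q * P ≤ H := Nat.div_mul_le_self H P
    have hqH2 : H < (q + 1) * P := by
      have := Nat.lt_mul_div_succ H (show 0 < P by omega)
      rw [← hq] at this
      calc H < P * (q + 1) := this
        _ = (q + 1) * P := by ring
    obtain ⟨k, k1, k2⟩ := level C (q - 1) (by omega) (by rw [← hm0']; omega)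
    have hnq : n ≤ C * (q - 1) := by
      have e1 : (q + 1) * P ≤ (3 * P) * (q - 1) := by
        obtain ⟨r, hr⟩ : ∃ r, q = r + 2 := ⟨q - 2, by omega⟩
        rw [hr, show r + 2 - 1 = r + 1 by omega]
        nlinarith
      have e2 : n ≤ 2 * ((q + 1) * P) + 1 := by omega
      have e3 : 1 ≤ (3 * P) * (q - 1) := by
        have : 1 * 1 ≤ (3 * P) * (q - 1) := Nat.mul_le_mul (by omega) (by omega)
        omega
      calc n ≤ 3 * ((3 * P) * (q - 1)) := by omega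
        _ = (9 * P) * (q - 1) := by ring
        _ ≤ C * (q - 1) := Nat.mul_le_mul_right _ (by omega)
    obtain ⟨o, f, L, f1, f2, f3, f4, f5, f6, f7, f8, f9⟩ := hmat n k q m H ν (by omega) hqH h2 h3
      (by omega) h4 h4' hnq (by omega) k1 hν
    refine ⟨o, f, L, f1, f2, f3, f4, ?_, f6, f7, f8, f9⟩
    have hGd : ∀ x y, 1 ≤ x → x ≤ n → 2 ≤ y → y ≤ n → Gd k n x y → QX B n (x * y - 1) := by
      intro x y hx1 hx hy1 hy hxy
      rcases hxy with hxy | ⟨h6, h7⟩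
      · obtain ⟨u1, u2⟩ := hQ k n x y (q - 1) (by omega) hnq k2 hx1 hx hy1 hy hxy
        exact ⟨⟨u1.trans (by omega), fun p hp hd => (u2 p hp hd).trans_le
          (Nat.pow_le_pow_right hp.pos (by omega))⟩, fun _ => ⟨u1, u2⟩⟩
      · exact ⟨QB_of_prime (by omega) h6 h7, fun _ =>
          ⟨(QB_of_prime (B := 177) (by omega) h6 h7).1.trans (by omega),
            (QB_of_prime (B := 177) (by omega) h6 h7).2⟩⟩
    intro j hj
    obtain ⟨d1, d2, d3, d4⟩ := f5 j hj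
    refine ⟨d1, d2, fun hjH => ?_, ?_⟩
    · obtain ⟨c1, c2⟩ := f2 j hjH
      have c3 := c1.pos
      exact hGd _ _ (by omega) (by omega) (by omega) (by omega) d3
    · obtain ⟨c1, c2⟩ := f2 _ (hν' j hj)
      have c3 := c1.pos
      rw [mul_comm]
      exact hGd _ _ (by omega) (by omega) (by omega) (by omega) d4
  -- the arc
  have harc : ∀ (H L : ℕ) (π f o : ℕ → ℕ), (n : ℝ) ^ (1 - ε) ≤ L → L + 1 < H → 2 * H ≤ n →
      (∀ j < H, π (2 * j) = o j) → (∀ j < H, π (2 * j + 1) = 2 * f j) →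
      (∀ j < L, (o (H - (L + 1) + j) * (2 * f (H - (L + 1) + j)) - 1).Prime ∧
          (o (H - (L + 1) + j + 1) * (2 * f (H - (L + 1) + j)) - 1).Prime) →
      ∃ a l : ℕ, (n : ℝ) ^ (1 - ε) ≤ l ∧ a + l < n ∧
        ∀ i, a ≤ i → i < a + l → (π i * π (i + 1) - 1).Prime := by
    intro H L π f o h2 h3 h4 h5 h6 h7
    refine ⟨2 * (H - (L + 1)), 2 * L, ?_, by omega, ?_⟩
    · refine h2.trans ?_
      have : L ≤ 2 * L := by omega
      exact_mod_cast this
    · intro i hi1 hi2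
      rcases Nat.even_or_odd' (i - 2 * (H - (L + 1))) with ⟨j, hj | hj⟩
      · have e1 : i = 2 * (H - (L + 1) + j) := by omega
        rw [e1, h5 _ (by omega), h6 _ (by omega)]
        exact (h7 j (by omega)).1
      · have e1 : i = 2 * (H - (L + 1) + j) + 1 := by omega
        have e2 : 2 * (H - (L + 1) + j) + 1 + 1 = 2 * (H - (L + 1) + j + 1) := by ring
        rw [e1, e2, h6 _ (by omega), h5 _ (by omega), mul_comm]
        exact (h7 j (by omega)).2
  rcases Nat.even_or_odd' n with ⟨m, hm | hm⟩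
  · -- even case
    obtain ⟨o, f, L, g1, g2, g3, g4, g5, g6, g7, g8, g9⟩ := hcommon m (m - 1) (by omega) (by omega)
      (by omega) (by omega) (by omega) (by omega) (fun j => (j + 1) % m)
      (fun x hx => Nat.mod_eq_of_lt (by omega))
      (fun x hx => by
        have := Nat.mod_lt (x + 1) (show 0 < m by omega)
        change (x + 1) % m ≤ m - 1
        omega)
    obtain ⟨π, q1, q2, q3, q4⟩ := hE m
      (fun x y => QX B n (x * y - 1) ∨ (Odd n ∧ x = 1 ∧ y = 3)) o f (by omega)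
      (by
        intro j hj
        obtain ⟨f1, f2, f3, f4⟩ := g5 j hj
        obtain ⟨c1, c2⟩ := g2 j (by omega)
        exact ⟨c1, by omega, f1, f2, Or.inl (f3 (by omega)), Or.inl f4⟩)
      (fun i hi j hj => g1 i (by omega) j (by omega)) g6
    have harc' := harc (m - 1) L π f o g7 g8 (by omega) (fun j hj => (q4 j (by omega)).1)
      (fun j hj => (q4 j (by omega)).2) g9
    rw [← hm] at q1 q2 q3
    exact ⟨π, q1, q2, fun i hi => q3 i hi, fun _ => harc'⟩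
  · -- odd case
    obtain ⟨o, f, L, g1, g2, g3, g4, g5, g6, g7, g8, g9⟩ := hcommon m m (by omega) (by omega)
      (by omega) (by omega) (by omega) (by omega) (fun j => j + 1) (fun x _ => rfl)
      (fun x hx => by change x + 1 ≤ m; omega)
    have hodd : Odd n := ⟨m, hm⟩
    obtain ⟨π, q1, q2, q3, q4, q5⟩ := hO m
      (fun x y => QX B n (x * y - 1) ∨ (Odd n ∧ x = 1 ∧ y = 3)) o f (by omega)
      (Or.inr ⟨hodd, g3, g4⟩) (fun j hj => g2 j hj)
      (by
        intro j hj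
        obtain ⟨f1, f2, f3, f4⟩ := g5 j hj
        exact ⟨f1, f2, Or.inl (f3 (by omega)), Or.inl f4⟩)
      g1 g6
    have harc' := harc m L π f o g7 g8 (by omega) (fun j hj => q4 j (by omega))
      (fun j hj => q5 j (by omega)) g9
    rw [← hm] at q1 q2 q3
    exact ⟨π, q1, q2, fun i hi => q3 i hi, fun _ => harc'⟩

end Pool.Agent.APC
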